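import Mathlib
import Pool.Agent.Y405.CQ.MER

/-! # Mertens' theorem modulo `12` -/

set_option autoImplicit false

open scoped Classical

namespace Pool.Agent.L0h74.T3.MER

open Finset

theorem m12 (a : ℕ) (ha : a.Coprime 12) : ∃ C : ℝ, ∀ y : ℕ, 3 ≤ y →
    |∑ p ∈ (range (y + 1)).filter (fun p => p.Prime ∧ p % 12 = a % 12), (1 : ℝ) / p -
      1 / 4 * Real.log (Real.log y)| ≤ C := by
  have h1 : a % 12 < 12 := Nat.mod_lt _ (by norm_num)
  have h2 : (a % 12).Coprime 12 := by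
    rw [Nat.coprime_iff_gcd_eq_one]
    rw [← Nat.gcd_rec 12 a, Nat.gcd_comm]
    exact ha
  obtain ⟨C, hC, h⟩ := Pool.Agent.Y405.CQ.mertens_ap 12 (by norm_num) (a % 12) h1 h2
  refine ⟨C, fun y hy => ?_⟩
  have h3 := h y hy
  have h4 : ((Nat.totient 12 : ℕ) : ℝ) = 4 := by
    have : Nat.totient 12 = 4 := by decide
    rw [this]; norm_num
  rw [h4] at h3
  have h5 : (range (y + 1)).filter (fun p => p.Prime ∧ p % 12 = a % 12) =
      (Icc 1 y).filter (fun p => p.Prime ∧ p % 12 = a % 12) := by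
    ext p
    simp only [mem_filter, mem_range, mem_Icc]
    constructor
    · rintro ⟨h1, h2, h3⟩
      exact ⟨⟨h2.pos, by omega⟩, h2, h3⟩
    · rintro ⟨⟨h0, h1⟩, h2, h3⟩
      exact ⟨by omega, h2, h3⟩
  rw [h5]
  exact h3

end Pool.Agent.L0h74.T3.MER
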