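import Pool.Agent.L0h1.KD.BX

/-!
# Project T3 (helper74): the natural density for the twists of `y ^ 2 = x ^ 3 + 1`

As in the projects ND (helper973) and KD (helper1), with the prime `3` instead of `7`: `D` runs over
the positive squarefree numbers `≡ 1` modulo `4` prime to `3`, and `Gd A b S` says that the linear
system attached to the set `S` of the prime factors of `D` has only the zero solution.
-/

set_option autoImplicit false
set_option linter.unusedVariables false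

open scoped Classical

namespace Pool.Agent.L0h74.T3

open Finset
open Pool.Agent.Y703.CX (sm la jj XX eL zz kk S_SIE)
open Pool.Agent.Y703.CQ (nr sg c2)
open Pool.Agent.N973.ND (uu Gv)
open Pool.Agent.N916.GB (HB ps S_BIL)

/-- the primes prime to `6` -/
def Pr (p : ℕ) : Prop := p.Prime ∧ p ≠ 2 ∧ p ≠ 3

/-- one if the prime splits in `ℚ(√-3)` -/
def m3 (p : ℕ) : ℕ := if p % 3 = 1 then 1 else 0

/-- the type of a prime: `0`: inert in `ℚ(√-3)`, `1` modulo `4`; `1`: inert, `3` modulo `4`;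
`2`: split, `1` modulo `4`; `3`: split, `3` modulo `4` -/
def ty (p : ℕ) : ℕ := 2 * m3 p + if p % 4 = 3 then 1 else 0

/-- the class of the sets of primes -/
def Cl (S : Finset ℕ) : Prop := (∀ p ∈ S, Pr p) ∧ (∏ p ∈ S, p) % 4 = 1

/-- the sets of the class with product at most `X` -/
noncomputable def SS (X : ℕ) : Finset (Finset ℕ) :=
  (range (X + 1)).powerset.filter fun S => Cl S ∧ ∏ p ∈ S, p ≤ X

/-- all the sets of primes prime to `6` with product at most `X` -/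
noncomputable def SA (X : ℕ) : Finset (Finset ℕ) :=
  (range (X + 1)).powerset.filter fun S => (∀ p ∈ S, Pr p) ∧ ∏ p ∈ S, p ≤ X

/-- the number of the split primes `3` modulo `4` minus the number of the inert primes `3`
modulo `4` -/
noncomputable def kd (S : Finset ℕ) : ℤ :=
  ((S.filter fun p => ty p = 3).card : ℤ) - ((S.filter fun p => ty p = 1).card : ℤ)

section abs
variable {V : Type} [Fintype V]

/-- the good systems attached to a family of primes -/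
def GR (A : ℕ → ℕ → ZMod 2) (b : ℕ → ZMod 2) (r : V → ℕ) : Prop :=
  Gv (univ.filter fun i => m3 (r i) = 1) (univ.filter fun i => ty (r i) = 2 ∨ ty (r i) = 1)
    (fun i j => nr (r j) (r i)) (fun i j => if i = j then 0 else A (r i) (r j) + nr (r j) (r i))
    (fun i => b (r i))

end abs

/-- the good sets -/
def Gd (A : ℕ → ℕ → ZMod 2) (b : ℕ → ZMod 2) (S : Finset ℕ) : Prop := GR A b fun i : S => (i : ℕ)

/-- the reciprocity law of the symbols -/
def RecA (A : ℕ → ℕ → ZMod 2) : Prop := ∀ p q : ℕ, Pr p → Pr q → p ≠ q → m3 p = 1 → m3 q = 1 →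
  A q p = A p q + uu p * uu q

/-- the labels of the large primes with respect to the small ones are not degenerate -/
def Nd (S₀ S₁ : Finset ℕ) : Prop :=
  ∀ w : ℕ → ZMod 2, (∃ u ∈ S₀, w u ≠ 0) → ∃ p ∈ S₁, ty p = 2 ∧ ∑ u ∈ S₀, w u * nr p u ≠ 0

/-- the number of the large inert primes `1` modulo `4` -/
noncomputable def n0 (z : ℕ) (S : Finset ℕ) : ℕ := ((la z S).filter fun p => ty p = 0).card

/-- the regular sets -/
noncomputable def RG (X z H k V : ℕ) : Finset (Finset ℕ) :=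
  (SS X).filter fun S => Set.InjOn (jj H) (la z S : Set ℕ) ∧ S.card ≤ k ∧
    (∏ p ∈ sm z S, p) * ∏ p ∈ la z S, XX H (jj H p) ≤ X ∧ 2 * (V : ℤ) ≤ kd S ∧
    3 * kd S + 3 * (V : ℤ) ≤ (n0 z S : ℤ)

/-- sets with many primes, sets near the boundary, sets with two primes in a block. -/
structure CntP : Prop where
  many : ∀ X k : ℕ, 1 ≤ X →
    (((SA X).filter fun S => k < S.card).card : ℝ) * 2 ^ k ≤ X * (1 + Real.log X)
  cut : ∀ X z H k : ℕ, 1 ≤ X → 1 ≤ H → (((SA X).filter fun S => S.card ≤ k ∧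
      X < (∏ p ∈ sm z S, p) * ∏ p ∈ la z S, XX H (jj H p)).card : ℝ) ≤ X * k / H + 1
  coll : ∀ X z H : ℕ, 1 ≤ X → 1 ≤ H → (((SA X).filter fun S =>
    ¬ Set.InjOn (jj H) (la z S : Set ℕ)).card : ℝ) ≤ 4 * X * (1 + Real.log X) / H

/-- the sets of split primes `1` modulo `4` on which the product of the primes in `W` is a square -/
noncomputable def HD (W : Finset ℕ) (T : ℕ) : Finset (Finset ℕ) :=
  (range (T + 1)).powerset.filter fun S => (∀ p ∈ S, Pr p ∧ ty p = 2 ∧ p ∉ W ∧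
    ∑ u ∈ W, nr p u = 0) ∧ ∏ p ∈ S, p ≤ T

/-- the logarithmic density for a nontrivial quadratic character. -/
def S_HAL : Prop := ∃ C : ℝ, 1 ≤ C ∧ ∀ (W : Finset ℕ) (T : ℕ), W.Nonempty →
  (∀ u ∈ W, Pr u) → 2 ≤ T →
  ∑ S ∈ HD W T, (1 : ℝ) / ((∏ p ∈ S, p : ℕ) : ℝ) ≤
    C * (Real.log ((∏ u ∈ W, u : ℕ) : ℝ)) ^ (1 / 2 : ℝ) * (Real.log T) ^ (1 / 8 : ℝ)

/-- the good sets of the class: `kd` is not negative -/
def S_NEG : Prop := ∀ (A : ℕ → ℕ → ZMod 2) (b : ℕ → ZMod 2) (S : Finset ℕ), (∀ p ∈ S, Pr p) →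
  Gd A b S → 0 ≤ kd S

/-- the class has positive density. -/
def S_LOW : Prop := ∃ (c : ℝ) (X₀ : ℕ), 0 < c ∧ ∀ X : ℕ, X₀ ≤ X → c * X ≤ ((SS X).card : ℝ)

/-- the distribution of `kd`. -/
def S_KD : Prop := ∀ (V : ℕ) (ε : ℝ), 0 < ε → ∃ X₀ : ℕ, ∀ X : ℕ, X₀ ≤ X →
  |(((SS X).filter fun S => 2 * (V : ℤ) ≤ kd S).card : ℝ) - (1 / 2) * ((SS X).card : ℝ)| ≤ ε * X

/-- the count in a box; the type `τ` of the primes is fixed. -/
def S_BX : Prop := ∀ (A : ℕ → ℕ → ZMod 2) (b : ℕ → ZMod 2) (ι : Type) [Fintype ι]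
  [LinearOrder ι] (τ : ι → ℕ) (C : ι → Finset ℕ) (X : ι → ℕ) (κ : ℝ) (S₀ : Finset ℕ) (m V : ℕ),
  RecA A → 0 ≤ κ → (∀ i, (C i).card ≤ X i) → HB C X κ → (∀ v ∈ S₀, Pr v) →
  (∀ i, ∀ p ∈ C i, Pr p ∧ p ∉ S₀ ∧ ty p = τ i) →
  (∀ i l, i ≠ l → Disjoint (C i) (C l)) →
  kd S₀ + ((univ.filter fun i => τ i = 3).card : ℤ) - ((univ.filter fun i => τ i = 1).card : ℤ) =
    2 * m → 1 ≤ V → V ≤ m → 6 * m + 3 * V ≤ (univ.filter fun i => τ i = 0).card →
  |(((Fintype.piFinset C).filter fun p => Nd S₀ (univ.image p) ∧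
        Gd A b (S₀ ∪ univ.image p)).card : ℝ) -
      c2 * (((Fintype.piFinset C).filter fun p => Nd S₀ (univ.image p)).card : ℝ)| ≤
    3 * (1 / 2 : ℝ) ^ V * (((Fintype.piFinset C).filter fun p => Nd S₀ (univ.image p)).card : ℝ) +
    3 * 2 ^ ((2 * S₀.card + 1) * Fintype.card ι + (ps ι).card) * (κ * ∏ j, (X j : ℝ))

/-- the sum over the boxes. -/
def S_KY : Prop := ∃ C : ℝ, 1 ≤ C ∧ ∀ (A : ℕ → ℕ → ZMod 2) (b : ℕ → ZMod 2), RecA A →
  ∀ (X z H k V N : ℕ) (κ : ℝ), 1 ≤ X → 1 ≤ H → 1 ≤ z → 1 ≤ V → 0 ≤ κ → C ≤ κ ^ 12 * z →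
  (H : ℝ) * Real.log X < N →
  |(((RG X z H k V).filter fun S => Nd (sm z S) (la z S) ∧ Gd A b S).card : ℝ) -
      c2 * (((RG X z H k V).filter fun S => Nd (sm z S) (la z S)).card : ℝ)| ≤
    3 * (1 / 2 : ℝ) ^ V * ((RG X z H k V).card : ℝ) +
    (9 * N + 9 : ℝ) ^ k * (3 ^ (9 * k ^ 2 + 9) * κ) * (X * (1 + Real.log X))

/-- the passage from a box to the sum over the boxes. -/
def S_KEY : Prop := S_BIL → S_BX → S_KY

/-- few sets have few large inert primes `1` modulo `4` compared with `kd`. -/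
def S_FEW : Prop := ∀ (V : ℕ) (ε : ℝ), 0 < ε → ∃ X₀ : ℕ, ∀ X : ℕ, X₀ ≤ X →
  (((SA X).filter fun S => (n0 (zz X) S : ℤ) < 3 * kd S + V).card : ℝ) ≤ ε * X

/-- few sets have degenerate labels. -/
def S_BAD : Prop := ∀ ε : ℝ, 0 < ε → ∃ X₀ : ℕ, ∀ X : ℕ, X₀ ≤ X →
  (((SA X).filter fun S => S.card ≤ kk X ∧ ¬ Nd (sm (zz X) S) (la (zz X) S)).card : ℝ) ≤ ε * X

/-- FINAL: the natural density -/
def S_DEN : Prop := ∀ (A : ℕ → ℕ → ZMod 2) (b : ℕ → ZMod 2), RecA A → Filter.Tendsto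
  (fun X : ℕ => (((Icc 1 X).filter fun D => Squarefree D ∧ D % 4 = 1 ∧ ¬ 3 ∣ D ∧
      Gd A b D.primeFactors).card : ℝ) /
    (((Icc 1 X).filter fun D => Squarefree D ∧ D % 4 = 1 ∧ ¬ 3 ∣ D).card : ℝ))
  Filter.atTop (nhds (c2 / 2))

theorem m3_le (p : ℕ) : m3 p ≤ 1 := by
  unfold m3
  split_ifs <;> norm_num

theorem ty_lt (p : ℕ) : ty p < 4 := by
  have := m3_le p
  unfold ty
  split_ifs <;> omega

end Pool.Agent.L0h74.T3
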