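import Pool.Agent.L0h74.T3.Stm

/-!
# Project T3 (helper74): the count in a box (after `Pool/Agent/L0h1/KD/BX0.lean`, `BX.lean`)
-/

set_option autoImplicit false
set_option linter.unusedSectionVars false
set_option linter.unusedVariables false
set_option maxHeartbeats 4000000

open scoped Classical

namespace Pool.Agent.L0h74.T3

open Finset
open Pool.Agent.Y703.CQ (nr sg c2 S_SYM S_C2)
open Pool.Agent.N973.ND (uu Gv nr_rec nr_self Hyp Wk pt sl sx TT Ph
  Zk bf Gv_tr S_ALT z2_add t_ALT)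
open Pool.Agent.N916.GB (HB)
open Pool.Agent.N958.GB (sgm HB_sub)
open Pool.Agent.L0h1.KD (card_prod_le ff ff_congr ff_le E1 am am_le
  am_nonneg la2 card_E1 eqc xe hat JK LC JL_dis)

section transport

variable {V V' : Type} [Fintype V] [Fintype V']

theorem GR_tr (e : V ≃ V') (A : ℕ → ℕ → ZMod 2) (b : ℕ → ZMod 2) {r : V → ℕ} {r' : V' → ℕ}
    (hr : ∀ i, r' (e i) = r i) (h : GR A b r) : GR A b r' := by
  refine Gv_tr e ?_ ?_ ?_ ?_ ?_ h
  · intro i
    simp only [mem_filter, mem_univ, true_and, hr]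
  · intro i
    simp only [mem_filter, mem_univ, true_and, hr]
  · intro i j
    rw [hr, hr]
  · intro i j
    rw [hr, hr]
    by_cases h1 : i = j
    · rw [if_pos h1, if_pos (congrArg e h1)]
    · rw [if_neg h1, if_neg fun h2 => h1 (e.injective h2)]
  · intro i
    rw [hr]

theorem GR_iff (e : V ≃ V') (A : ℕ → ℕ → ZMod 2) (b : ℕ → ZMod 2) {r : V → ℕ} {r' : V' → ℕ}
    (hr : ∀ i, r' (e i) = r i) : GR A b r ↔ GR A b r' :=
  ⟨GR_tr e A b hr, GR_tr e.symm A b fun i => by rw [← hr, e.apply_symm_apply]⟩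

/-- the good sets from a parametrization -/
theorem Gd_iff (A : ℕ → ℕ → ZMod 2) (b : ℕ → ZMod 2) {r : V → ℕ} (hr : Function.Injective r)
    {S : Finset ℕ} (hS : univ.image r = S) : Gd A b S ↔ GR A b r := by
  unfold Gd
  have h1 : ∀ i, r i ∈ S := fun i => by
    rw [← hS]
    exact mem_image_of_mem _ (mem_univ _)
  have h2 : Function.Bijective fun i : V => (⟨r i, h1 i⟩ : S) := by
    constructor
    · intro i j h
      exact hr (congrArg Subtype.val h)
    · rintro ⟨x, hx⟩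
      rw [← hS, mem_image] at hx
      obtain ⟨i, -, rfl⟩ := hx
      exact ⟨i, rfl⟩
  exact (GR_iff (Equiv.ofBijective _ h2) A b fun i => rfl).symm

end transport

theorem ty_cases (x : ℕ) : (ty x = 0 ∧ m3 x = 0 ∧ uu x = 0) ∨ (ty x = 1 ∧ m3 x = 0 ∧ uu x = 1) ∨
    (ty x = 2 ∧ m3 x = 1 ∧ uu x = 0) ∨ (ty x = 3 ∧ m3 x = 1 ∧ uu x = 1) := by
  have h1 := m3_le x
  have h2 : m3 x = 0 ∨ m3 x = 1 := by omega
  unfold ty uu
  by_cases h : x % 4 = 3
  · rw [if_pos h, if_pos h]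
    rcases h2 with h2 | h2 <;> rw [h2] <;> simp
  · rw [if_neg h, if_neg h]
    rcases h2 with h2 | h2 <;> rw [h2] <;> simp

theorem m3_of_ty {x y : ℕ} (h : ty x = ty y) : m3 x = m3 y := by
  rcases ty_cases x with h1 | h1 | h1 | h1 <;> rcases ty_cases y with h2 | h2 | h2 | h2 <;>
    first | (exfalso; have a1 := h1.1; have a2 := h2.1; omega) | (rw [h1.2.1, h2.2.1])

theorem uu_of_ty {x y : ℕ} (h : ty x = ty y) : uu x = uu y := by
  rcases ty_cases x with h1 | h1 | h1 | h1 <;> rcases ty_cases y with h2 | h2 | h2 | h2 <;>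
    first | (exfalso; have a1 := h1.1; have a2 := h2.1; omega) | (rw [h1.2.2, h2.2.2])

/-- the type of the labels -/
abbrev Lb (S₀ : Finset ℕ) : Type := (S₀ → ZMod 2) × (S₀ → ZMod 2) × ZMod 2

/-- the label of a prime with respect to the small primes -/
noncomputable def lb (b : ℕ → ZMod 2) (S₀ : Finset ℕ) (x : ℕ) : Lb S₀ :=
  (fun v => nr x v, fun v => nr v x, b x)

/-- the good labels -/
def LN {ι : Type} (S₀ : Finset ℕ) (τ : ι → ℕ) (β : ι → Lb S₀) : Prop :=
  ∀ w : ℕ → ZMod 2, (∃ u ∈ S₀, w u ≠ 0) → ∃ i, τ i = 2 ∧ ∑ v : S₀, w v * (β i).1 v ≠ 0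

section
variable {ι : Type} [Fintype ι] [LinearOrder ι] {S₀ : Finset ℕ} {p : ι → ℕ} {τ : ι → ℕ}
  {b : ℕ → ZMod 2}

theorem nd_iff (hτ : ∀ i, ty (p i) = τ i) :
    Nd S₀ (univ.image p) ↔ LN S₀ τ (fun i => lb b S₀ (p i)) := by
  have key : ∀ (w : ℕ → ZMod 2) (i : ι),
      ∑ v ∈ S₀, w v * nr (p i) v = ∑ v : S₀, w v * (lb b S₀ (p i)).1 v := by
    intro w i
    rw [← Finset.sum_coe_sort S₀]
    rfl
  unfold Nd LN
  constructor
  · intro h w hw
    obtain ⟨x, hx, hx2, hx3⟩ := h w hw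
    obtain ⟨i, -, rfl⟩ := mem_image.1 hx
    exact ⟨i, by rw [← hτ i, hx2], by rw [← key]; exact hx3⟩
  · intro h w hw
    obtain ⟨i, hi, hi2⟩ := h w hw
    exact ⟨p i, mem_image_of_mem _ (mem_univ _), by rw [hτ i, hi], by rw [key]; exact hi2⟩

/-- the parametrization -/
def rr (S₀ : Finset ℕ) (p : ι → ℕ) : S₀ ⊕ ι → ℕ := Sum.elim (fun u => (u : ℕ)) p

theorem rr_inj (hp : Function.Injective p) (hd : ∀ i, p i ∉ S₀) :
    Function.Injective (rr S₀ p) := by
  have hd' : ∀ (u : S₀) (i : ι), (u : ℕ) ≠ p i := fun u i h => hd i (by rw [← h]; exact u.2)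
  rintro (u | i) (v | j) h
  · exact congrArg Sum.inl (Subtype.ext h)
  · exact absurd h (hd' u j)
  · exact absurd h.symm (hd' v i)
  · exact congrArg Sum.inr (hp h)

theorem rr_im : univ.image (rr S₀ p) = S₀ ∪ univ.image p := by
  ext x
  rw [mem_union, mem_image, mem_image]
  constructor
  · rintro ⟨u | i, -, rfl⟩
    · exact Or.inl u.2
    · exact Or.inr ⟨i, mem_univ _, rfl⟩
  · rintro (h | ⟨i, -, rfl⟩)
    · exact ⟨Sum.inl ⟨x, h⟩, mem_univ _, rfl⟩
    · exact ⟨Sum.inr i, mem_univ _, rfl⟩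

/-- the matrix of a family -/
noncomputable def NN {V : Type} (r : V → ℕ) (i j : V) : ZMod 2 := nr (r j) (r i)

/-- the matrix of a family -/
noncomputable def EE (A : ℕ → ℕ → ZMod 2) {V : Type} (r : V → ℕ) (i j : V) : ZMod 2 :=
  if i = j then 0 else A (r i) (r j) + nr (r j) (r i)

/-- the split indices -/
noncomputable def SSp {V : Type} [Fintype V] (r : V → ℕ) : Finset V :=
  univ.filter fun i => m3 (r i) = 1

/-- the other index set -/
noncomputable def PPc {V : Type} [Fintype V] (r : V → ℕ) : Finset V :=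
  univ.filter fun i => ty (r i) = 2 ∨ ty (r i) = 1

theorem GR_eq (A : ℕ → ℕ → ZMod 2) (b : ℕ → ZMod 2) {V : Type} [Fintype V] (r : V → ℕ) :
    GR A b r ↔ Gv (SSp r) (PPc r) (NN r) (EE A r) fun i => b (r i) := Iff.rfl

theorem ty_rr {p₀ : ι → ℕ} (h : ∀ i, ty (p i) = ty (p₀ i)) (i : S₀ ⊕ ι) :
    ty (rr S₀ p i) = ty (rr S₀ p₀ i) := by
  rcases i with u | i
  · rfl
  · exact h i

theorem SSp_eq {p₀ : ι → ℕ} (h : ∀ i, ty (p i) = ty (p₀ i)) :
    SSp (rr S₀ p) = SSp (rr S₀ p₀) := by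
  unfold SSp
  exact filter_congr fun i _ => by rw [m3_of_ty (ty_rr h i)]

theorem PPc_eq {p₀ : ι → ℕ} (h : ∀ i, ty (p i) = ty (p₀ i)) :
    PPc (rr S₀ p) = PPc (rr S₀ p₀) := by
  unfold PPc
  exact filter_congr fun i _ => by rw [ty_rr h i]

/-- the reciprocity of the matrix -/
theorem NN_rec {V : Type} {r : V → ℕ} (hr : Function.Injective r) (hp : ∀ i, Pr (r i)) (i j : V)
    (hij : i ≠ j) : NN r j i = NN r i j + uu (r i) * uu (r j) := by
  unfold NN
  rw [nr_rec (hp j).1 (hp j).2.1 (hp i).1 (hp i).2.1 fun h => hij (hr h).symm]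
  ring

theorem EE_symm {A : ℕ → ℕ → ZMod 2} (hA : RecA A) {V : Type} {r : V → ℕ}
    (hr : Function.Injective r) (hp : ∀ i, Pr (r i)) (i j : V) (hi : m3 (r i) = 1)
    (hj : m3 (r j) = 1) : EE A r i j = EE A r j i := by
  unfold EE
  by_cases h : i = j
  · rw [if_pos h, if_pos h.symm]
  · rw [if_neg h, if_neg fun h' => h h'.symm, hA (r i) (r j) (hp i) (hp j) (fun h' => h (hr h')) hi hj]
    have h1 := NN_rec hr hp i j h
    unfold NN at h1
    rw [h1]
    have : ∀ x y z : ZMod 2, x + y = x + z + (y + z) := by decide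
    exact this _ _ _

/-- the sizes -/
theorem card_sp {m : ℕ} (hτ : ∀ i, ty (p i) = τ i)
    (h : kd S₀ + ((univ.filter fun i => τ i = 3).card : ℤ) -
      ((univ.filter fun i => τ i = 1).card : ℤ) = 2 * m) :
    (SSp (rr S₀ p)).card = (PPc (rr S₀ p)).card + 2 * m := by
  have key : ∀ x : ℕ, (if m3 x = 1 then (1 : ℤ) else 0) - (if ty x = 2 ∨ ty x = 1 then 1 else 0) =
      (if ty x = 3 then 1 else 0) - (if ty x = 1 then 1 else 0) := by
    intro x
    rcases ty_cases x with h | h | h | h <;> rw [h.1, h.2.1] <;> simp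
  have h1 : ((SSp (rr S₀ p)).card : ℤ) - ((PPc (rr S₀ p)).card : ℤ) =
      ∑ i : S₀ ⊕ ι, ((if ty (rr S₀ p i) = 3 then (1 : ℤ) else 0) -
        (if ty (rr S₀ p i) = 1 then 1 else 0)) := by
    unfold SSp PPc
    rw [card_filter, card_filter]
    push_cast
    rw [← sum_sub_distrib]
    exact sum_congr rfl fun i _ => key _
  have h2 : ∑ i : S₀ ⊕ ι, ((if ty (rr S₀ p i) = 3 then (1 : ℤ) else 0) -
        (if ty (rr S₀ p i) = 1 then 1 else 0)) = kd S₀ +
      ((univ.filter fun i => τ i = 3).card : ℤ) - ((univ.filter fun i => τ i = 1).card : ℤ) := by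
    rw [Fintype.sum_sum_type]
    have h3 : ∑ u : S₀, ((if ty (rr S₀ p (Sum.inl u)) = 3 then (1 : ℤ) else 0) -
        (if ty (rr S₀ p (Sum.inl u)) = 1 then 1 else 0)) = kd S₀ := by
      unfold kd
      rw [card_filter, card_filter]
      push_cast
      rw [← sum_sub_distrib, ← Finset.sum_coe_sort S₀]
      rfl
    have h4 : ∑ i : ι, ((if ty (rr S₀ p (Sum.inr i)) = 3 then (1 : ℤ) else 0) -
        (if ty (rr S₀ p (Sum.inr i)) = 1 then 1 else 0)) =
        ((univ.filter fun i => τ i = 3).card : ℤ) - ((univ.filter fun i => τ i = 1).card : ℤ) := by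
      rw [card_filter, card_filter]
      push_cast
      rw [← sum_sub_distrib]
      refine sum_congr rfl fun i _ => ?_
      have : ty (rr S₀ p (Sum.inr i)) = τ i := hτ i
      rw [this]
    rw [h3, h4]
    ring
  rw [h2, h] at h1
  omega

end


section
variable {ι : Type} [Fintype ι] [LinearOrder ι] {S₀ : Finset ℕ} {τ : ι → ℕ}
  {A : ℕ → ℕ → ZMod 2} {b : ℕ → ZMod 2} {β : ι → Lb S₀} {C : ι → Finset ℕ}

/-- the facts on the tuples of a box with given labels -/
structure TP (τ : ι → ℕ) (b : ℕ → ZMod 2) (S₀ : Finset ℕ) (β : ι → Lb S₀) (p : ι → ℕ) : Prop where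
  inj : Function.Injective p
  pr : ∀ i, Pr (p i)
  ns : ∀ i, p i ∉ S₀
  ty : ∀ i, ty (p i) = τ i
  lab : ∀ i, lb b S₀ (p i) = β i

/-- the matrix with the free symbols set to zero -/
noncomputable def MM (τ : ι → ℕ) (S₀ : Finset ℕ) (p : ι → ℕ) : S₀ ⊕ ι → S₀ ⊕ ι → ZMod 2 :=
  pt (NN (rr S₀ p)) fun k l => if k ∈ JK τ ∧ l ∈ LC τ then nr (p l) (p k) else 0

theorem mem_SSp {p : ι → ℕ} (hp : TP τ b S₀ β p) (k : ι) :
    Sum.inr k ∈ SSp (rr S₀ p) ↔ k ∈ JK τ := by
  unfold SSp JK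
  rw [mem_filter, mem_filter]
  have h1 : rr S₀ p (Sum.inr k) = p k := rfl
  have h2 := hp.ty k
  rw [h1, ← h2]
  rcases ty_cases (p k) with h | h | h | h <;> rw [h.1, h.2.1] <;> simp

/-- the matrix of a tuple, from the free symbols -/
theorem NN_hat {p₀ p : ι → ℕ} (h₀ : TP τ b S₀ β p₀) (hp : TP τ b S₀ β p) :
    ∀ i ∈ SSp (rr S₀ p₀), ∀ j, NN (rr S₀ p) i j =
      pt (MM τ S₀ (hat τ p₀ p)) (xe (Jk := JK τ) (Lc := LC τ)
        fun e => nr (p e.1.1) (p e.1.2)) i j := by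
  intro i hi j
  rcases i with u | k
  · rcases j with v | l
    · rfl
    · show nr (p l) u = nr (hat τ p₀ p l) u
      unfold hat
      split_ifs with h
      · have h1 := (h₀.lab l).trans (hp.lab l).symm
        have h2 := congrFun (congrArg Prod.fst h1) u
        exact h2.symm
      · rfl
  · have hk : k ∈ JK τ := (mem_SSp h₀ k).1 hi
    have hτk : τ k ≠ 0 := by
      unfold JK at hk
      rw [mem_filter] at hk
      have := hk.2
      omega
    have hhk : hat τ p₀ p k = p k := by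
      unfold hat
      rw [if_neg hτk]
    rcases j with v | l
    · show nr v (p k) = nr v (hat τ p₀ p k)
      rw [hhk]
    · show nr (p l) (p k) = nr (hat τ p₀ p l) (hat τ p₀ p k) +
        (if k ∈ JK τ ∧ l ∈ LC τ then nr (hat τ p₀ p l) (hat τ p₀ p k) else 0) +
        xe (Jk := JK τ) (Lc := LC τ) (fun e => nr (p e.1.1) (p e.1.2)) k l
      unfold xe
      by_cases hl : l ∈ LC τ
      · rw [if_pos ⟨hk, hl⟩, dif_pos (mem_product.2 ⟨hk, hl⟩), z2_add, zero_add]
        have hτl : τ l = 0 := by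
          unfold LC at hl
          exact (mem_filter.1 hl).2
        have hne : k ≠ l := fun h => hτk (by rw [h, hτl])
        have hu : uu (p l) = 0 := by
          have h1 := hp.ty l
          rw [hτl] at h1
          rcases ty_cases (p l) with h | h | h | h
          · exact h.2.2
          · rw [h.1] at h1; omega
          · rw [h.1] at h1; omega
          · rw [h.1] at h1; omega
        show nr (p l) (p k) = nr (p k) (p l)
        rw [nr_rec (hp.pr k).1 (hp.pr k).2.1 (hp.pr l).1 (hp.pr l).2.1 (fun h => hne (hp.inj h)), hu,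
          mul_zero, add_zero]
      · rw [if_neg (fun h => hl h.2), dif_neg (fun h => hl (mem_product.1 h).2), add_zero, add_zero,
          hhk]
        have hτl : τ l ≠ 0 := by
          intro h
          apply hl
          unfold LC
          exact mem_filter.2 ⟨mem_univ _, h⟩
        unfold hat
        rw [if_neg hτl]

theorem EE_hat {p₀ p : ι → ℕ} (h₀ : TP τ b S₀ β p₀) :
    ∀ i ∈ SSp (rr S₀ p₀), ∀ j ∈ SSp (rr S₀ p₀),
      EE A (rr S₀ p) i j = EE A (rr S₀ (hat τ p₀ p)) i j := by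
  have key : ∀ i ∈ SSp (rr S₀ p₀), rr S₀ p i = rr S₀ (hat τ p₀ p) i := by
    intro i hi
    rcases i with u | k
    · rfl
    · have hk : k ∈ JK τ := (mem_SSp h₀ k).1 hi
      have hτk : τ k ≠ 0 := by
        unfold JK at hk
        rw [mem_filter] at hk
        have := hk.2
        omega
      show p k = hat τ p₀ p k
      unfold hat
      rw [if_neg hτk]
  intro i hi j hj
  unfold EE
  rw [key i hi, key j hj]

/-- the matrix of a tuple, from another tuple with the same labels -/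
theorem two_tuples {p₀ p : ι → ℕ} (h₀ : TP τ b S₀ β p₀) (hp : TP τ b S₀ β p) :
    NN (rr S₀ p) = pt (NN (rr S₀ p₀)) (Pool.Agent.N916.GB.sx (sgm p + sgm p₀)) := by
  have huu : ∀ k, uu (p k) = uu (p₀ k) := fun k => uu_of_ty ((hp.ty k).trans (h₀.ty k).symm)
  have hl : ∀ k, lb b S₀ (p k) = lb b S₀ (p₀ k) := fun k => (hp.lab k).trans (h₀.lab k).symm
  have hrn : ∀ k l, k ≠ l → nr (p l) (p k) + nr (p₀ l) (p₀ k) =
      nr (p k) (p l) + nr (p₀ k) (p₀ l) := by
    intro k l hkl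
    rw [nr_rec (hp.pr k).1 (hp.pr k).2.1 (hp.pr l).1 (hp.pr l).2.1 fun h => hkl (hp.inj h),
      nr_rec (h₀.pr k).1 (h₀.pr k).2.1 (h₀.pr l).1 (h₀.pr l).2.1 fun h => hkl (h₀.inj h),
      huu k, huu l]
    have : ∀ x y z : ZMod 2, x + z + (y + z) = x + y := by decide
    exact this _ _ _
  funext i j
  rcases i with u | k <;> rcases j with v | l
  · rfl
  · show nr (p l) u = nr (p₀ l) u
    exact congrFun (congrArg Prod.fst (hl l)) u
  · show nr v (p k) = nr v (p₀ k)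
    exact congrFun (congrArg (fun t => t.2.1) (hl k)) v
  · show nr (p l) (p k) = nr (p₀ l) (p₀ k) + Pool.Agent.N916.GB.sx (sgm p + sgm p₀) k l
    by_cases hkl : k = l
    · subst hkl
      rw [nr_self, nr_self, Pool.Agent.N958.GB.sx_self, add_zero]
    · rw [Pool.Agent.N958.GB.sx_sgm k l hkl (hrn k l hkl)]
      have : ∀ x y : ZMod 2, x = y + (x + y) := by decide
      exact this _ _

/-- the hypotheses for the first condition -/
theorem hyp {m : ℕ} (hA : RecA A) (hS₀ : ∀ v ∈ S₀, Pr v) {p₀ : ι → ℕ} (h₀ : TP τ b S₀ β p₀)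
    (hβ : LN S₀ τ β) (hkd : kd S₀ + ((univ.filter fun i => τ i = 3).card : ℤ) -
      ((univ.filter fun i => τ i = 1).card : ℤ) = 2 * m) (hL : ∃ i, τ i = 0) :
    Hyp (JK τ) (SSp (rr S₀ p₀)) (PPc (rr S₀ p₀)) (fun i => uu (rr S₀ p₀ i)) (NN (rr S₀ p₀))
      (EE A (rr S₀ p₀)) m := by
  have hPr : ∀ i, Pr (rr S₀ p₀ i) := by
    rintro (u | i)
    · exact hS₀ u u.2
    · exact h₀.pr i
  have hinj := rr_inj h₀.inj h₀.ns
  refine ⟨mem_SSp h₀, ?_, ?_, ?_, ?_, ?_, ?_, ?_, card_sp h₀.ty hkd⟩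
  · intro i
    unfold PPc SSp
    rw [mem_filter, mem_filter]
    simp only [mem_univ, true_and]
    rcases ty_cases (rr S₀ p₀ i) with h | h | h | h <;> rw [h.1, h.2.1, h.2.2] <;> simp
  · intro i
    exact nr_self _
  · intro i j hij
    exact NN_rec hinj hPr i j hij
  · intro i
    unfold EE
    rw [if_pos rfl]
  · intro i hi j hj
    unfold SSp at hi hj
    exact EE_symm hA hinj hPr i j (mem_filter.1 hi).2 (mem_filter.1 hj).2
  · intro w hw
    set w' : ℕ → ZMod 2 := fun n => if h : n ∈ S₀ then w ⟨n, h⟩ else 0 with hw'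
    have hw1 : ∀ v : S₀, w' v = w v := fun v => by
      rw [hw']
      exact dif_pos v.2
    obtain ⟨v, hv⟩ := hw
    obtain ⟨i, hi, hi2⟩ := hβ w' ⟨v, v.2, by rw [hw1]; exact hv⟩
    have hty := h₀.ty i
    rw [hi] at hty
    refine ⟨i, ?_, ?_, ?_⟩
    · unfold JK
      exact mem_filter.2 ⟨mem_univ _, Or.inl hi⟩
    · show uu (p₀ i) = 0
      rcases ty_cases (p₀ i) with h | h | h | h
      · rw [h.1] at hty; omega
      · rw [h.1] at hty; omega
      · exact h.2.2
      · rw [h.1] at hty; omega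
    · intro h0
      apply hi2
      refine Eq.trans ?_ h0
      refine sum_congr rfl fun v' _ => ?_
      rw [hw1, ← h₀.lab i]
      rfl
  · obtain ⟨i, hi⟩ := hL
    refine ⟨i, ?_, ?_⟩
    · unfold JK
      rw [mem_filter]
      omega
    · show uu (p₀ i) = 0
      have hty := h₀.ty i
      rw [hi] at hty
      rcases ty_cases (p₀ i) with h | h | h | h
      · exact h.2.2
      · rw [h.1] at hty; omega
      · rw [h.1] at hty; omega
      · rw [h.1] at hty; omega

theorem hat_TP {p₀ p : ι → ℕ} (h₀ : TP τ b S₀ β p₀) (hp : TP τ b S₀ β p) :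
    TP τ b S₀ β (hat τ p₀ p) := by
  refine ⟨?_, ?_, ?_, ?_, ?_⟩
  · intro i j hij
    have hty : τ i = τ j := by
      have h1 : ∀ i, ty (hat τ p₀ p i) = τ i := by
        intro i
        unfold hat
        split_ifs
        · exact h₀.ty i
        · exact hp.ty i
      rw [← h1 i, ← h1 j, hij]
    unfold hat at hij
    by_cases h : τ i = 0
    · rw [if_pos h, if_pos (hty ▸ h)] at hij
      exact h₀.inj hij
    · rw [if_neg h, if_neg (fun h' => h (hty ▸ h'))] at hij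
      exact hp.inj hij
  · intro i
    unfold hat
    split_ifs
    · exact h₀.pr i
    · exact hp.pr i
  · intro i
    unfold hat
    split_ifs
    · exact h₀.ns i
    · exact hp.ns i
  · intro i
    unfold hat
    split_ifs
    · exact h₀.ty i
    · exact hp.ty i
  · intro i
    unfold hat
    split_ifs
    · exact h₀.lab i
    · exact hp.lab i

/-- the average over the free symbols -/
theorem avg_le (hALT : S_ALT) {m V : ℕ} (hA : RecA A) (hS₀ : ∀ v ∈ S₀, Pr v) {p₀ : ι → ℕ}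
    (h₀ : TP τ b S₀ β p₀) (hβ : LN S₀ τ β)
    (hkd : kd S₀ + ((univ.filter fun i => τ i = 3).card : ℤ) -
      ((univ.filter fun i => τ i = 1).card : ℤ) = 2 * m) (hV : 1 ≤ V)
    (hL : 6 * m + 3 * V ≤ (univ.filter fun i => τ i = 0).card) {p : ι → ℕ}
    (hp : TP τ b S₀ β p) :
    |∑ ε : ↥(JK τ ×ˢ LC τ) → ZMod 2, ff (SSp (rr S₀ p₀)) (PPc (rr S₀ p₀))
      (EE A (rr S₀ (hat τ p₀ p))) (fun i => b (rr S₀ p₀ i)) m
      (pt (MM τ S₀ (hat τ p₀ p)) (xe ε))| ≤
      (1 / 2 : ℝ) ^ V * 2 ^ Fintype.card ↥(JK τ ×ˢ LC τ) := by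
  have hh := hat_TP h₀ hp
  have hL1 : ∃ i, τ i = 0 := by
    have h1 : 0 < (univ.filter fun i => τ i = 0).card := by omega
    obtain ⟨i, hi⟩ := card_pos.1 h1
    exact ⟨i, (mem_filter.1 hi).2⟩
  have H := hyp hA hS₀ hh hβ hkd hL1
  have hty : ∀ i, ty (hat τ p₀ p i) = ty (p₀ i) := fun i => (hh.ty i).trans (h₀.ty i).symm
  rw [SSp_eq hty, PPc_eq hty] at H
  have h1 := la2 (Sp := SSp (rr S₀ p₀)) (Pc := PPc (rr S₀ p₀)) (Jk := JK τ) (Lc := LC τ)
    (N := MM τ S₀ (hat τ p₀ p)) (E := EE A (rr S₀ (hat τ p₀ p)))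
    (b := fun i => b (rr S₀ p₀ i)) (m := m) (q := 2 * m + V) hALT (by
      intro l hl h
      unfold LC at hl
      have hl0 := (mem_filter.1 hl).2
      unfold PPc at h
      have h2 := (mem_filter.1 h).2
      have h3 : ty (rr S₀ p₀ (Sum.inr l)) = 0 := (h₀.ty l).trans hl0
      omega) H.es H.e0 H.card (by
      intro w hw hwk hne
      have hU : ∃ v : S₀, w (Sum.inl v) ≠ 0 := by
        obtain ⟨i, hi⟩ := hne
        rcases i with v | k
        · exact ⟨v, hi⟩
        · exfalso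
          by_cases hk : k ∈ JK τ
          · exact hi (hwk k hk)
          · exact hi (hw _ fun h => hk ((mem_SSp h₀ k).1 h))
      obtain ⟨k, hk, huk, hsum⟩ := H.nd (fun v => w (Sum.inl v)) hU
      refine ⟨Sum.inr k, (H.pc _).2 (Or.inl ⟨(H.sp k).2 hk, huk⟩), hwk k hk, ?_⟩
      rw [Fintype.sum_sum_type]
      have h2 : ∑ k', w (Sum.inr k') * MM τ S₀ (hat τ p₀ p) (Sum.inr k') (Sum.inr k) = 0 := by
        refine sum_eq_zero fun k' _ => ?_
        have h3 : w (Sum.inr k') = 0 := by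
          by_cases hk' : k' ∈ JK τ
          · exact hwk k' hk'
          · exact hw _ fun h => hk' ((mem_SSp h₀ k').1 h)
        rw [h3, zero_mul]
      rw [h2, add_zero]
      exact hsum) (by
      have h2 : (LC τ).card = (univ.filter fun i => τ i = 0).card := rfl
      rw [h2]
      omega)
  set T := |∑ ε : ↥(JK τ ×ˢ LC τ) → ZMod 2, ff (SSp (rr S₀ p₀)) (PPc (rr S₀ p₀))
      (EE A (rr S₀ (hat τ p₀ p))) (fun i => b (rr S₀ p₀ i)) m
      (pt (MM τ S₀ (hat τ p₀ p)) (xe ε))| with hT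
  have h2 : T * 2 ^ (2 * m + V) ≤ ((1 / 2 : ℝ) ^ V * 2 ^ Fintype.card ↥(JK τ ×ˢ LC τ)) *
      2 ^ (2 * m + V) := by
    refine h1.trans (le_of_eq ?_)
    have h3 : (1 / 2 : ℝ) ^ V * 2 ^ V = 1 := by
      rw [← mul_pow]
      norm_num
    rw [pow_add]
    calc (2 : ℝ) ^ (2 * m) * 2 ^ Fintype.card ↥(JK τ ×ˢ LC τ) =
        ((1 / 2 : ℝ) ^ V * 2 ^ V) * (2 ^ (2 * m) * 2 ^ Fintype.card ↥(JK τ ×ˢ LC τ)) := by
          rw [h3, one_mul]
      _ = _ := by ring
  exact le_of_mul_le_mul_right h2 (by positivity)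

/-- **the part of a box with given labels** -/
theorem lab (hALT : S_ALT) (hC2 : S_C2) (hA : RecA A) {X : ι → ℕ} {κ : ℝ} {m V : ℕ} (hκ : 0 ≤ κ)
    (hCX : ∀ i, (C i).card ≤ X i) (hHB : HB C X κ) (hS₀ : ∀ v ∈ S₀, Pr v)
    (hTP : ∀ p ∈ Fintype.piFinset C, TP τ b S₀ β p) (hβ : LN S₀ τ β)
    (hkd : kd S₀ + ((univ.filter fun i => τ i = 3).card : ℤ) -
      ((univ.filter fun i => τ i = 1).card : ℤ) = 2 * m) (hV : 1 ≤ V) (hVm : V ≤ m)
    (hL : 6 * m + 3 * V ≤ (univ.filter fun i => τ i = 0).card) :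
    |(((Fintype.piFinset C).filter fun p => Gd A b (S₀ ∪ univ.image p)).card : ℝ) -
        c2 * ((Fintype.piFinset C).card : ℝ)| ≤
      3 * (1 / 2 : ℝ) ^ V * ((Fintype.piFinset C).card : ℝ) +
      3 * (2 ^ (Pool.Agent.N916.GB.ps ι).card * (κ * ∏ j, (X j : ℝ))) := by
  set R : ℝ := 2 ^ (Pool.Agent.N916.GB.ps ι).card * (κ * ∏ j, (X j : ℝ)) with hR
  have hR00 : 0 ≤ κ * ∏ j, (X j : ℝ) :=
    mul_nonneg hκ (Finset.prod_nonneg fun j _ => by positivity)
  have hR0 : 0 ≤ R := mul_nonneg (by positivity) hR00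
  set P : ℝ := ((Fintype.piFinset C).card : ℝ) with hP
  have hP0 : 0 ≤ P := Nat.cast_nonneg _
  by_cases hemp : Fintype.piFinset C = ∅
  · rw [hemp, filter_empty]
    rw [hP, hemp]
    simp
    exact hR0
  obtain ⟨p₀, hp₀⟩ := Finset.nonempty_iff_ne_empty.2 hemp
  have h₀ := hTP p₀ hp₀
  set Sp := SSp (rr S₀ p₀) with hSp
  set Pc := PPc (rr S₀ p₀) with hPc
  set b₀ : S₀ ⊕ ι → ZMod 2 := fun i => b (rr S₀ p₀ i) with hb₀
  set N₀ := NN (rr S₀ p₀) with hN₀
  have hL1 : ∃ i, τ i = 0 := by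
    have h1 : 0 < (univ.filter fun i => τ i = 0).card := by omega
    obtain ⟨i, hi⟩ := card_pos.1 h1
    exact ⟨i, (mem_filter.1 hi).2⟩
  have H := hyp hA hS₀ h₀ hβ hkd hL1
  -- the condition
  have hGd : ∀ p ∈ Fintype.piFinset C, (Gd A b (S₀ ∪ univ.image p) ↔
      Gv Sp Pc (NN (rr S₀ p)) (EE A (rr S₀ p)) b₀) := by
    intro p hp
    have h1 := hTP p hp
    have hty : ∀ i, ty (p i) = ty (p₀ i) := fun i => (h1.ty i).trans (h₀.ty i).symm
    rw [Gd_iff A b (rr_inj h1.inj h1.ns) rr_im, GR_eq, SSp_eq hty, PPc_eq hty]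
    have h2 : (fun i => b (rr S₀ p i)) = b₀ := by
      funext i
      rcases i with u | k
      · rfl
      · exact congrArg (fun t => t.2.2) ((h1.lab k).trans (h₀.lab k).symm)
    rw [h2]
  -- the first condition
  obtain ⟨Q, hQ⟩ : ∃ Q : (Pool.Agent.N916.GB.ps ι → ZMod 2) → Prop, Q = fun σ =>
    ¬ E1 Sp Pc (pt N₀ (Pool.Agent.N916.GB.sx (σ + sgm p₀))) b₀ := ⟨_, rfl⟩
  have hQc : (univ.filter Q).card * 4 ^ m ≤ 2 ^ (Pool.Agent.N916.GB.ps ι).card := by
    refine le_trans (le_of_eq ?_) (card_E1 H b₀)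
    congr 1
    refine card_bij (fun σ _ => σ + sgm p₀) ?_ ?_ ?_
    · intro σ hσ
      rw [mem_filter, hQ] at hσ
      rw [mem_filter]
      exact ⟨mem_univ _, hσ.2⟩
    · intro σ _ σ' _ h
      exact add_right_cancel h
    · intro σ hσ
      refine ⟨σ - sgm p₀, ?_, sub_add_cancel _ _⟩
      rw [mem_filter] at hσ ⊢
      refine ⟨mem_univ _, ?_⟩
      simp only [hQ, sub_add_cancel]
      exact hσ.2
  have hPC : ∏ j, ((C j).card : ℝ) = P := by
    rw [hP, Fintype.card_piFinset]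
    push_cast
    rfl
  set B := (Fintype.piFinset C).filter fun p => ¬ E1 Sp Pc (NN (rr S₀ p)) b₀ with hB
  have hE1 : (B.card : ℝ) ≤ (1 / 4 : ℝ) ^ m * P + R := by
    have h1 := Pool.Agent.N19.GB.t_EQ ι C X κ hκ hCX hHB Q
    have h2 : ((Fintype.piFinset C).filter fun p => Q fun e => nr (p e.1.1) (p e.1.2)) = B := by
      refine filter_congr fun p hp => ?_
      rw [two_tuples h₀ (hTP p hp), hQ]
      rfl
    rw [h2, hPC] at h1
    have h3 : ((univ.filter Q).card : ℝ) / 2 ^ (Pool.Agent.N916.GB.ps ι).card ≤ (1 / 4 : ℝ) ^ m := by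
      rw [div_le_iff₀ (by positivity)]
      have h4 : ((univ.filter Q).card : ℝ) * 4 ^ m ≤ 2 ^ (Pool.Agent.N916.GB.ps ι).card := by
        exact_mod_cast hQc
      have h5 : (0 : ℝ) < 4 ^ m := by positivity
      have h6 : (1 / 4 : ℝ) ^ m * 4 ^ m = 1 := by
        rw [← mul_pow]
        norm_num
      refine le_of_mul_le_mul_right ?_ h5
      calc ((univ.filter Q).card : ℝ) * 4 ^ m ≤ 2 ^ (Pool.Agent.N916.GB.ps ι).card := h4
        _ = ((1 / 4 : ℝ) ^ m * 4 ^ m) * 2 ^ (Pool.Agent.N916.GB.ps ι).card := by rw [h6, one_mul]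
        _ = _ := by ring
    have h4 := (abs_le.1 h1).2
    have h5 := mul_le_mul_of_nonneg_right h3 hP0
    linarith
  -- the second condition
  set g : (ι → ℕ) → ℝ := fun p => ff Sp Pc (EE A (rr S₀ p)) b₀ m (NN (rr S₀ p)) with hg
  have hff : |∑ p ∈ Fintype.piFinset C, g p| ≤ (1 / 2 : ℝ) ^ V * P + R := by
    set F : (ι → ℕ) → (↥(JK τ ×ˢ LC τ) → ZMod 2) → ℂ := fun p ε =>
      ((ff Sp Pc (EE A (rr S₀ (hat τ p₀ p))) b₀ m (pt (MM τ S₀ (hat τ p₀ p)) (xe ε)) : ℝ) : ℂ)
      with hF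
    have h1 := eqc (Jk := JK τ) (Lc := LC τ) hκ hCX hHB (JL_dis τ) F (by
      intro p ε
      simp only [hF]
      rw [Complex.norm_real, Real.norm_eq_abs]
      exact ff_le _) (by
      intro p p' h
      have h2 : hat τ p₀ p = hat τ p₀ p' := by
        funext i
        unfold hat
        split_ifs with hi
        · rfl
        · refine h i fun h' => hi ?_
          unfold LC at h'
          exact (mem_filter.1 h').2
      simp only [hF, h2])
    have h2 : ∀ p ∈ Fintype.piFinset C, F p (fun e => nr (p e.1.1) (p e.1.2)) = ((g p : ℝ) : ℂ) := by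
      intro p hp
      simp only [hF, hg]
      congr 1
      exact (ff_congr (NN_hat h₀ (hTP p hp)) (EE_hat h₀)).symm
    have h3 : ∀ p ∈ Fintype.piFinset C,
        ‖(∑ ε, F p ε) / 2 ^ Fintype.card ↥(JK τ ×ˢ LC τ)‖ ≤ (1 / 2 : ℝ) ^ V := by
      intro p hp
      have h4 := avg_le hALT hA hS₀ h₀ hβ hkd hV hL (hTP p hp)
      rw [norm_div, norm_pow]
      have e2 : ‖(2 : ℂ)‖ = 2 := by norm_num
      rw [e2, div_le_iff₀ (by positivity)]
      refine le_trans (le_of_eq ?_) h4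
      simp only [hF]
      rw [← Complex.ofReal_sum, Complex.norm_real, Real.norm_eq_abs]
    have h4 : ((∑ p ∈ Fintype.piFinset C, g p : ℝ) : ℂ) =
        ∑ p ∈ Fintype.piFinset C, (F p (fun e => nr (p e.1.1) (p e.1.2)) -
          (∑ ε, F p ε) / 2 ^ Fintype.card ↥(JK τ ×ˢ LC τ)) +
        ∑ p ∈ Fintype.piFinset C, (∑ ε, F p ε) / 2 ^ Fintype.card ↥(JK τ ×ˢ LC τ) := by
      rw [← sum_add_distrib, Complex.ofReal_sum]
      refine sum_congr rfl fun p hp => ?_
      rw [sub_add_cancel, h2 p hp]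
    have h5 : |∑ p ∈ Fintype.piFinset C, g p| = ‖((∑ p ∈ Fintype.piFinset C, g p : ℝ) : ℂ)‖ := by
      rw [Complex.norm_real, Real.norm_eq_abs]
    rw [h5, h4]
    refine (norm_add_le _ _).trans ?_
    have h6 : (2 : ℝ) ^ Fintype.card ↥(JK τ ×ˢ LC τ) * (κ * ∏ j, (X j : ℝ)) ≤ R := by
      rw [hR]
      refine mul_le_mul_of_nonneg_right ?_ hR00
      exact pow_le_pow_right₀ (by norm_num) (card_prod_le (JL_dis τ))
    have h7 : ‖∑ p ∈ Fintype.piFinset C, (∑ ε, F p ε) / 2 ^ Fintype.card ↥(JK τ ×ˢ LC τ)‖ ≤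
        (1 / 2 : ℝ) ^ V * P := by
      refine (norm_sum_le _ _).trans ?_
      refine (sum_le_card_nsmul _ _ _ h3).trans (le_of_eq ?_)
      rw [nsmul_eq_mul, hP, mul_comm]
    linarith [h1, h6, h7]
  -- the combination
  set G : ℝ := (((Fintype.piFinset C).filter fun p => Gd A b (S₀ ∪ univ.image p)).card : ℝ) with hG
  have hsum : ∑ p ∈ Fintype.piFinset C, g p = G - am m * (P - B.card) := by
    have h1 : ∀ p ∈ Fintype.piFinset C, g p = (if Gd A b (S₀ ∪ univ.image p) then (1 : ℝ) else 0) -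
        am m * (1 - if ¬ E1 Sp Pc (NN (rr S₀ p)) b₀ then (1 : ℝ) else 0) := by
      intro p hp
      simp only [hg]
      unfold ff
      congr 1
      · simp only [hGd p hp]
      · congr 1
        split_ifs with h1 <;> norm_num
    rw [sum_congr rfl h1, sum_sub_distrib, ← mul_sum, sum_sub_distrib, sum_const, nsmul_eq_mul,
      mul_one]
    have h2 : ∑ p ∈ Fintype.piFinset C, (if Gd A b (S₀ ∪ univ.image p) then (1 : ℝ) else 0) = G := by
      rw [hG, card_filter]
      push_cast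
      rfl
    have h3 : ∑ p ∈ Fintype.piFinset C, (if ¬ E1 Sp Pc (NN (rr S₀ p)) b₀ then (1 : ℝ) else 0) =
        B.card := by
      rw [hB, card_filter]
      push_cast
      rfl
    rw [h2, h3]
  have hc2 := hC2.1 m
  have ham : |am m - c2| ≤ (1 / 4 : ℝ) ^ m := hc2
  have hB0 : (0 : ℝ) ≤ B.card := Nat.cast_nonneg _
  have h1 : G - c2 * P = ∑ p ∈ Fintype.piFinset C, g p + ((am m - c2) * P - am m * B.card) := by
    rw [hsum]
    ring
  have h2 : |(am m - c2) * P - am m * B.card| ≤ (1 / 4 : ℝ) ^ m * P + B.card := by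
    refine (abs_sub _ _).trans ?_
    rw [abs_mul, abs_mul, abs_of_nonneg hP0, abs_of_nonneg (am_nonneg m), abs_of_nonneg hB0]
    have h3 := mul_le_mul_of_nonneg_right ham hP0
    have h4 := mul_le_mul_of_nonneg_right (am_le m) hB0
    linarith
  have h3 : (1 / 4 : ℝ) ^ m ≤ (1 / 2 : ℝ) ^ V := by
    calc (1 / 4 : ℝ) ^ m ≤ (1 / 4 : ℝ) ^ V :=
          pow_le_pow_of_le_one (by norm_num) (by norm_num) hVm
      _ ≤ (1 / 2 : ℝ) ^ V := pow_le_pow_left₀ (by norm_num) (by norm_num) V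
  have h4 := mul_le_mul_of_nonneg_right h3 hP0
  rw [h1]
  refine (abs_add_le _ _).trans ?_
  linarith

end

/-- **The count in a box.** -/
theorem t_BX : S_BX := by
  intro A b ι _ _ τ C X κ S₀ m V hA hκ hCX hHB hS₀ hC hdis hkd hV hVm hL
  have hALT := t_ALT Pool.Agent.Y839.CQ.t_SYM
  have hC2 := Pool.Agent.Y948.CQ.t_C2
  set R : ℝ := 2 ^ (Pool.Agent.N916.GB.ps ι).card * (κ * ∏ j, (X j : ℝ)) with hR
  have hR0 : 0 ≤ R := mul_nonneg (by positivity)
    (mul_nonneg hκ (Finset.prod_nonneg fun j _ => by positivity))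
  have hinj : ∀ p ∈ Fintype.piFinset C, Function.Injective p := by
    intro p hp i j hij
    rw [Fintype.mem_piFinset] at hp
    by_contra hne
    have h1 := Finset.disjoint_left.1 (hdis i j hne) (hp i)
    rw [hij] at h1
    exact h1 (hp j)
  have hτ : ∀ p ∈ Fintype.piFinset C, ∀ i, ty (p i) = τ i := by
    intro p hp i
    rw [Fintype.mem_piFinset] at hp
    exact (hC i _ (hp i)).2.2
  -- the part with given labels
  have h1 : ∀ β : ι → Lb S₀, LN S₀ τ β →
      |(((Fintype.piFinset C).filter fun p => (fun i => lb b S₀ (p i)) = β ∧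
          Gd A b (S₀ ∪ univ.image p)).card : ℝ) -
        c2 * (((Fintype.piFinset C).filter fun p => (fun i => lb b S₀ (p i)) = β).card : ℝ)| ≤
      3 * (1 / 2 : ℝ) ^ V *
        (((Fintype.piFinset C).filter fun p => (fun i => lb b S₀ (p i)) = β).card : ℝ) + 3 * R := by
    intro β hβ
    set C' : ι → Finset ℕ := fun i => (C i).filter fun q => lb b S₀ q = β i with hC'
    have hpi : (Fintype.piFinset C).filter (fun p => (fun i => lb b S₀ (p i)) = β) =
        Fintype.piFinset C' := by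
      ext p
      simp only [Finset.mem_filter, Fintype.mem_piFinset, hC']
      constructor
      · rintro ⟨h2, h3⟩ i
        exact ⟨h2 i, congrFun h3 i⟩
      · intro h2
        exact ⟨fun i => (h2 i).1, funext fun i => (h2 i).2⟩
    rw [← Finset.filter_filter, hpi]
    refine lab hALT hC2 hA hκ
      (fun i => (Finset.card_le_card (Finset.filter_subset _ _)).trans (hCX i))
      (HB_sub hHB fun i q => lb b S₀ q = β i) hS₀ ?_ hβ hkd hV hVm hL
    intro p hp
    have hp' : p ∈ Fintype.piFinset C := by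
      rw [Fintype.mem_piFinset] at hp ⊢
      exact fun i => (mem_filter.1 (hp i)).1
    refine ⟨hinj p hp', fun i => ?_, fun i => ?_, hτ p hp', fun i => ?_⟩
    · rw [Fintype.mem_piFinset] at hp'
      exact (hC i _ (hp' i)).1
    · rw [Fintype.mem_piFinset] at hp'
      exact (hC i _ (hp' i)).2.1
    · rw [Fintype.mem_piFinset] at hp
      exact (mem_filter.1 (hp i)).2
  -- sum over the labels
  set LL := univ.filter (fun β : ι → Lb S₀ => LN S₀ τ β) with hLL
  have hfib : ∀ T : (ι → ℕ) → Prop,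
      (((Fintype.piFinset C).filter fun p => Nd S₀ (univ.image p) ∧ T p).card : ℝ) =
      ∑ β ∈ LL, (((Fintype.piFinset C).filter fun p =>
        (fun i => lb b S₀ (p i)) = β ∧ T p).card : ℝ) := by
    intro T
    rw [Finset.card_eq_sum_card_fiberwise (f := fun (p : ι → ℕ) (i : ι) => lb b S₀ (p i))
      (t := LL) (by
        intro p hp
        rw [Finset.mem_coe, Finset.mem_filter] at hp
        rw [Finset.mem_coe, hLL, Finset.mem_filter]
        exact ⟨Finset.mem_univ _, (nd_iff (hτ p hp.1)).1 hp.2.1⟩)]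
    push_cast
    refine Finset.sum_congr rfl fun β hβ => ?_
    rw [hLL, Finset.mem_filter] at hβ
    congr 2
    ext p
    simp only [Finset.mem_filter]
    constructor
    · rintro ⟨⟨h3, h4, h4'⟩, h5⟩
      exact ⟨h3, h5, h4'⟩
    · rintro ⟨h3, h4, h5⟩
      refine ⟨⟨h3, ?_, h5⟩, h4⟩
      rw [nd_iff (b := b) (hτ p h3), h4]
      exact hβ.2
  have hf1 := hfib fun p => Gd A b (S₀ ∪ univ.image p)
  have hf2 := hfib fun _ => True
  simp only [and_true] at hf2
  rw [hf1, hf2, Finset.mul_sum, ← Finset.sum_sub_distrib]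
  refine (Finset.abs_sum_le_sum_abs _ _).trans ?_
  refine (Finset.sum_le_sum fun β hβ => h1 β (Finset.mem_filter.1 hβ).2).trans ?_
  rw [Finset.sum_add_distrib, ← Finset.mul_sum, Finset.sum_const, nsmul_eq_mul]
  have h5 : ((LL.card : ℕ) : ℝ) ≤ 2 ^ ((2 * S₀.card + 1) * Fintype.card ι) := by
    have h6 : LL.card ≤ Fintype.card (ι → Lb S₀) := Finset.card_le_univ _
    rw [Fintype.card_fun, Fintype.card_prod, Fintype.card_prod, Fintype.card_fun,
      ZMod.card, Fintype.card_coe, ← pow_succ, ← pow_add, ← pow_mul] at h6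
    have h7 : (S₀.card + (S₀.card + 1)) * Fintype.card ι = (2 * S₀.card + 1) * Fintype.card ι := by
      ring
    rw [h7] at h6
    exact_mod_cast h6
  have h6 := mul_le_mul_of_nonneg_right h5 (mul_nonneg (by norm_num : (0 : ℝ) ≤ 3) hR0)
  have h7 : (3 : ℝ) * 2 ^ ((2 * S₀.card + 1) * Fintype.card ι + (Pool.Agent.N916.GB.ps ι).card) *
      (κ * ∏ j, (X j : ℝ)) = 2 ^ ((2 * S₀.card + 1) * Fintype.card ι) * (3 * R) := by
    rw [hR, pow_add]
    ring
  rw [h7]
  linarith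

end Pool.Agent.L0h74.T3
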