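import Mathlib
import Pool.Agent.L0h74.EV.S4g

set_option autoImplicit false

/-!
The distribution of the number of prime factors `p ≡ 7 mod 12` minus the number of prime factors
`p ≡ 11 mod 12`, for the square-free numbers prime to `3` in an odd residue class modulo a power `u`
of two (after `Pool/Agent/L0h74/S4`).
-/

namespace Pool.Agent.L0h74.T3.S4

open Finset Filter
open scoped Topology
open Pool.Agent.L0h74.S4 (cnt_crt G norm_exp_sub norm_prod_sub_prod exp3 tele LP sum_sq_LP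
  LL yy th tendsto_LL tendsto_yy tendsto_ratio props th_sq tendsto_th
  tendsto_log_LL_div tendsto_th_log levy_half)
open Pool.Agent.L0h74.EV (Co)

/-- the sign of a prime -/
def fp (p : ℕ) : ℤ :=
  if p % 4 = 3 ∧ p % 3 = 1 then 1
  else if p % 4 = 3 ∧ p % 3 = 2 then -1 else 0

lemma fp_cases (p : ℕ) : fp p = 1 ∨ fp p = -1 ∨ fp p = 0 := by
  unfold fp; split_ifs <;> simp

lemma abs_fp (p : ℕ) : |(fp p : ℝ)| ≤ 1 := by
  rcases fp_cases p with h | h | h <;> rw [h] <;> norm_num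

lemma fp_two : fp 2 = 0 := by decide
lemma fp_three : fp 3 = 0 := by decide

/-- the additive function -/
def mm (D : ℕ) : ℤ := ∑ p ∈ D.primeFactors, fp p

/-- truncated primes -/
def PP (y : ℕ) : Finset ℕ := (Icc 1 y).filter fun p => p.Prime ∧ p ≠ 2 ∧ p ≠ 3

/-- phases -/
noncomputable def ze (θ : ℝ) (p : ℕ) : ℂ := Complex.exp ((θ * (fp p : ℝ) : ℝ) * Complex.I)

lemma norm_ze (θ : ℝ) (p : ℕ) : ‖ze θ p‖ = 1 := by
  unfold ze; exact Complex.norm_exp_ofReal_mul_I _

lemma G_sq (θ : ℝ) (p n : ℕ) (h : p ^ 2 ∣ n) :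
    G (fun p => ze θ p - 1) (fun p => - ze θ p) p n = 0 := by
  have h1 : p ∣ n := (Dvd.intro_left (p ^ 1) (by ring)).trans h
  simp [G, h, h1]

lemma G_one (θ : ℝ) (p n : ℕ) (h1 : p ∣ n) (h : ¬ p ^ 2 ∣ n) :
    G (fun p => ze θ p - 1) (fun p => - ze θ p) p n = ze θ p := by
  simp [G, h, h1]

lemma G_zero (θ : ℝ) (p n : ℕ) (h1 : ¬ p ∣ n) :
    G (fun p => ze θ p - 1) (fun p => - ze θ p) p n = 1 := by
  have h : ¬ p ^ 2 ∣ n := fun h => h1 ((Dvd.intro_left (p ^ 1) (by ring)).trans h)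
  simp [G, h, h1]

lemma norm_G_le (θ : ℝ) (p n : ℕ) :
    ‖G (fun p => ze θ p - 1) (fun p => - ze θ p) p n‖ ≤ 1 := by
  by_cases h1 : p ∣ n
  · by_cases h2 : p ^ 2 ∣ n
    · rw [G_sq θ p n h2]; simp
    · rw [G_one θ p n h1 h2, norm_ze]
  · rw [G_zero θ p n h1]; simp

/-- the local factor of the main term divided by `1 - 1/p²` -/
noncomputable def av (θ : ℝ) (p : ℕ) : ℂ := 1 + (ze θ p - 1) / ((p : ℂ) + 1)

/-- the gaussian approximation of the local factor -/
noncomputable def bv (θ : ℝ) (p : ℕ) : ℂ :=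
  Complex.exp ((((θ * (fp p : ℝ) : ℝ) : ℂ) * Complex.I - ((θ * (fp p : ℝ) : ℝ) : ℂ) ^ 2 / 2) /
    ((p : ℂ) + 1))

lemma norm_av (θ : ℝ) (p : ℕ) : ‖av θ p‖ ≤ 1 := by
  have hp : (0 : ℝ) < (p : ℝ) + 1 := by positivity
  have hpc : ((p : ℂ) + 1) ≠ 0 := by exact_mod_cast hp.ne'
  have e : av θ p = ((p : ℂ) + ze θ p) / ((p : ℂ) + 1) := by
    unfold av; field_simp; ring
  rw [e, norm_div]
  have h1 : ‖(p : ℂ) + 1‖ = (p : ℝ) + 1 := by
    have : ((p : ℂ) + 1) = (((p : ℝ) + 1 : ℝ) : ℂ) := by push_cast; rfl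
    rw [this, Complex.norm_real, Real.norm_eq_abs, abs_of_pos hp]
  rw [h1, div_le_one hp]
  refine (norm_add_le _ _).trans ?_
  rw [norm_ze]
  simp

lemma norm_bv (θ : ℝ) (p : ℕ) : ‖bv θ p‖ ≤ 1 := by
  unfold bv
  rw [Complex.norm_exp]
  have e : ((((θ * (fp p : ℝ) : ℝ) : ℂ) * Complex.I - ((θ * (fp p : ℝ) : ℝ) : ℂ) ^ 2 / 2) /
    ((p : ℂ) + 1)).re = - ((θ * (fp p : ℝ)) ^ 2 / 2 / ((p : ℝ) + 1)) := by
    have h1 : (((((θ * (fp p : ℝ) : ℝ) : ℂ) * Complex.I - ((θ * (fp p : ℝ) : ℝ) : ℂ) ^ 2 / 2) /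
      ((p : ℂ) + 1))) = ((- ((θ * (fp p : ℝ)) ^ 2 / 2 / ((p : ℝ) + 1)) : ℝ) : ℂ) +
        (((θ * (fp p : ℝ)) / ((p : ℝ) + 1) : ℝ) : ℂ) * Complex.I := by
      push_cast; ring
    rw [h1, Complex.add_re, Complex.ofReal_re, Complex.re_ofReal_mul, Complex.I_re, mul_zero,
      add_zero]
  rw [e]
  apply Real.exp_le_one_iff.2
  have : 0 ≤ (θ * (fp p : ℝ)) ^ 2 / 2 / ((p : ℝ) + 1) := by positivity
  linarith

lemma norm_av_sub_bv (θ : ℝ) (hθ : |θ| ≤ 1) (p : ℕ) (hp1 : 1 ≤ p) :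
    ‖av θ p - bv θ p‖ ≤ |θ| ^ 3 * (1 / p) + 4 * |θ| ^ 2 * (1 / (p : ℝ) ^ 2) := by
  set x : ℝ := θ * (fp p : ℝ) with hx
  have hxθ : |x| ≤ |θ| := by
    rw [hx, abs_mul]
    exact mul_le_of_le_one_right (abs_nonneg _) (abs_fp p)
  have hx1 : |x| ≤ 1 := hxθ.trans hθ
  have hp : (0 : ℝ) < (p : ℝ) + 1 := by positivity
  have hp0 : (0 : ℝ) < (p : ℝ) := by exact_mod_cast hp1
  have h1 : ‖(p : ℂ) + 1‖ = (p : ℝ) + 1 := by
    have : ((p : ℂ) + 1) = (((p : ℝ) + 1 : ℝ) : ℂ) := by push_cast; rfl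
    rw [this, Complex.norm_real, Real.norm_eq_abs, abs_of_pos hp]
  set v : ℂ := ((x : ℂ) * Complex.I - (x : ℂ) ^ 2 / 2) / ((p : ℂ) + 1) with hv
  have hvn : ‖v‖ ≤ 2 * |θ| / ((p : ℝ) + 1) := by
    rw [hv, norm_div, h1]
    apply div_le_div_of_nonneg_right _ hp.le
    refine (norm_sub_le _ _).trans ?_
    have e1 : ‖(x : ℂ) * Complex.I‖ = |x| := by simp
    have e2 : ‖(x : ℂ) ^ 2 / 2‖ = |x| ^ 2 / 2 := by simp
    rw [e1, e2]
    have : |x| ^ 2 ≤ |θ| := by
      calc |x| ^ 2 = |x| * |x| := by ring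
        _ ≤ |θ| * 1 := mul_le_mul hxθ hx1 (abs_nonneg _) (abs_nonneg _)
        _ = |θ| := mul_one _
    have := abs_nonneg θ
    linarith
  have hvn1 : ‖v‖ ≤ 1 := by
    refine hvn.trans ?_
    rw [div_le_one hp]
    have : (1 : ℝ) ≤ p := by exact_mod_cast hp1
    linarith
  have hexp := Complex.norm_exp_sub_one_sub_id_le hvn1
  have e1 : av θ p - bv θ p = (Complex.exp (x * Complex.I) - 1 - x * Complex.I + (x : ℂ) ^ 2 / 2) /
      ((p : ℂ) + 1) - (Complex.exp v - 1 - v) := by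
    unfold av bv ze
    rw [← hx, ← hv]
    rw [hv]
    ring
  rw [e1]
  refine (norm_sub_le _ _).trans (add_le_add ?_ ?_)
  · rw [norm_div, h1]
    calc ‖Complex.exp (x * Complex.I) - 1 - x * Complex.I + (x : ℂ) ^ 2 / 2‖ / ((p : ℝ) + 1)
        ≤ |θ| ^ 3 / p := by
          apply div_le_div₀ (by positivity) _ hp0 (by linarith)
          exact (exp3 x hx1).trans (pow_le_pow_left₀ (abs_nonneg _) hxθ 3)
      _ = |θ| ^ 3 * (1 / p) := by ring
  · refine hexp.trans ?_
    calc ‖v‖ ^ 2 ≤ (2 * |θ| / p) ^ 2 := by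
          apply pow_le_pow_left₀ (norm_nonneg _)
          refine hvn.trans ?_
          apply div_le_div_of_nonneg_left (by positivity) hp0 (by linarith)
      _ = 4 * |θ| ^ 2 * (1 / (p : ℝ) ^ 2) := by
          rw [div_pow]; ring

theorem prod_av (θ : ℝ) (hθ : |θ| ≤ 1) (P : Finset ℕ) (hP : ∀ p ∈ P, 1 ≤ p) :
    ‖∏ p ∈ P, av θ p - Complex.exp ((((θ * ∑ p ∈ P, (fp p : ℝ) / ((p : ℝ) + 1) : ℝ)) : ℂ) * Complex.I
      - ((θ ^ 2 / 2 * ∑ p ∈ P, (fp p : ℝ) ^ 2 / ((p : ℝ) + 1) : ℝ) : ℂ))‖ ≤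
    |θ| ^ 3 * ∑ p ∈ P, (1 : ℝ) / p + 4 * |θ| ^ 2 * ∑ p ∈ P, (1 : ℝ) / (p : ℝ) ^ 2 := by
  have h1 : Complex.exp ((((θ * ∑ p ∈ P, (fp p : ℝ) / ((p : ℝ) + 1) : ℝ)) : ℂ) * Complex.I
      - ((θ ^ 2 / 2 * ∑ p ∈ P, (fp p : ℝ) ^ 2 / ((p : ℝ) + 1) : ℝ) : ℂ)) = ∏ p ∈ P, bv θ p := by
    simp only [bv]
    rw [← Complex.exp_sum]
    congr 1
    push_cast
    rw [Finset.mul_sum, Finset.sum_mul, Finset.mul_sum, ← Finset.sum_sub_distrib]
    apply Finset.sum_congr rfl
    intro p _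
    ring
  rw [h1]
  refine (norm_prod_sub_prod P _ _ (fun p _ => norm_av θ p) (fun p _ => norm_bv θ p)).trans ?_
  rw [Finset.mul_sum, Finset.mul_sum, ← Finset.sum_add_distrib]
  exact Finset.sum_le_sum (fun p hp => norm_av_sub_bv θ hθ p (hP p hp))

/-- the constant -/
noncomputable def KK (y : ℕ) : ℝ := ∏ p ∈ PP y, (1 - 1 / (p : ℝ) ^ 2)

lemma main_factor (θ : ℝ) (y : ℕ) :
    ∏ p ∈ PP y, (1 + (ze θ p - 1) / p + (- ze θ p) / (p : ℂ) ^ 2) =
      (KK y : ℂ) * ∏ p ∈ PP y, av θ p := by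
  unfold KK
  rw [Complex.ofReal_prod, ← Finset.prod_mul_distrib]
  apply Finset.prod_congr rfl
  intro p hp
  simp only [PP, mem_filter, mem_Icc] at hp
  have hp0 : (p : ℂ) ≠ 0 := by exact_mod_cast hp.2.1.ne_zero
  have hp1 : (p : ℂ) + 1 ≠ 0 := by exact_mod_cast Nat.succ_ne_zero p
  unfold av
  push_cast
  field_simp
  ring

lemma KK_ge (y : ℕ) (hy : 1 ≤ y) : 1 / 2 ≤ KK y := by
  have hsub : PP y ⊆ Icc 2 y := by
    intro p hp
    simp only [PP, mem_filter, mem_Icc] at hp ⊢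
    exact ⟨hp.2.1.two_le, hp.1.2⟩
  have hf : ∀ n ∈ Icc 2 y, (0 : ℝ) ≤ 1 - 1 / (n : ℝ) ^ 2 ∧ 1 - 1 / (n : ℝ) ^ 2 ≤ 1 := by
    intro n hn
    have h2 : (2 : ℝ) ≤ n := by exact_mod_cast (mem_Icc.1 hn).1
    constructor
    · rw [sub_nonneg, div_le_one (by positivity)]
      nlinarith
    · have : 0 ≤ 1 / (n : ℝ) ^ 2 := by positivity
      linarith
  have h1 : (∏ n ∈ Icc 2 y \ PP y, (1 - 1 / (n : ℝ) ^ 2)) * KK y =
      ∏ n ∈ Icc 2 y, (1 - 1 / (n : ℝ) ^ 2) := Finset.prod_sdiff hsub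
  have h2 : (∏ n ∈ Icc 2 y \ PP y, (1 - 1 / (n : ℝ) ^ 2)) ≤ 1 :=
    Finset.prod_le_one (fun n hn => (hf n (mem_sdiff.1 hn).1).1)
      (fun n hn => (hf n (mem_sdiff.1 hn).1).2)
  have h3 : 0 ≤ KK y := Finset.prod_nonneg (fun n hn => (hf n (hsub hn)).1)
  rw [tele y hy] at h1
  have hy0 : (0 : ℝ) < y := by exact_mod_cast hy
  have h4 : (1 : ℝ) / 2 ≤ (y + 1) / (2 * y) := by
    rw [div_le_div_iff₀ (by norm_num) (by positivity)]
    linarith
  have h5 : (∏ n ∈ Icc 2 y \ PP y, (1 - 1 / (n : ℝ) ^ 2)) * KK y ≤ KK y :=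
    mul_le_of_le_one_left h3 h2
  linarith

lemma KK_le (y : ℕ) : KK y ≤ 1 := by
  apply Finset.prod_le_one
  · intro p hp
    simp only [PP, mem_filter, mem_Icc] at hp
    have h2 : (2 : ℝ) ≤ p := by exact_mod_cast hp.2.1.two_le
    rw [sub_nonneg, div_le_one (by positivity)]
    nlinarith
  · intro p _
    have : 0 ≤ 1 / (p : ℝ) ^ 2 := by positivity
    linarith

lemma sum_sq_PP (y : ℕ) (hy : 1 ≤ y) : ∑ p ∈ PP y, (1 : ℝ) / (p : ℝ) ^ 2 ≤ 1 := by
  have hsub : PP y ⊆ Ioc 1 y := by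
    intro p hp
    simp only [PP, mem_filter, mem_Icc, mem_Ioc] at hp ⊢
    exact ⟨hp.2.1.one_lt, hp.1.2⟩
  calc ∑ p ∈ PP y, (1 : ℝ) / (p : ℝ) ^ 2 ≤ ∑ p ∈ Ioc 1 y, (1 : ℝ) / (p : ℝ) ^ 2 :=
        Finset.sum_le_sum_of_subset_of_nonneg hsub (fun _ _ _ => by positivity)
    _ = ∑ p ∈ Ioc 1 y, ((p : ℝ) ^ 2)⁻¹ := by simp only [one_div]
    _ ≤ ((1 : ℕ) : ℝ)⁻¹ - (y : ℝ)⁻¹ := sum_Ioc_inv_sq_le_sub (by norm_num) hy
    _ ≤ 1 := by
        have : (0 : ℝ) ≤ (y : ℝ)⁻¹ := by positivity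
        push_cast
        linarith

/-- The Rankin error bound -/
lemma err (X y : ℕ) (hX : 1 ≤ X) (hy : 1 ≤ y) (δ : ℝ) (hδ0 : 0 ≤ δ) (hyδ : (y : ℝ) ^ δ ≤ Real.exp 1)
    (θ : ℝ) :
    2 * ((X : ℝ) / (1 : ℕ)) ^ (1 - δ) *
        ∏ p ∈ PP y, (1 + ‖ze θ p - 1‖ * (p : ℝ) ^ (-(1 - δ)) +
          ‖- ze θ p‖ * ((p : ℝ) ^ 2) ^ (-(1 - δ))) ≤
    2 * X * Real.exp (- (δ * Real.log X) +
      (Real.exp 1 * |θ| * (∑ p ∈ PP y, (1 : ℝ) / p) + Real.exp 2)) := by
  have hX0 : (0 : ℝ) < X := by exact_mod_cast hX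
  have h1 : ((X : ℝ) / (1 : ℕ)) ^ (1 - δ) = X * Real.exp (-(δ * Real.log X)) := by
    rw [Nat.cast_one, div_one, Real.rpow_def_of_pos hX0]
    have : Real.log X * (1 - δ) = Real.log X + (-(δ * Real.log X)) := by ring
    rw [this, Real.exp_add, Real.exp_log hX0]
  have h2 : ∏ p ∈ PP y, (1 + ‖ze θ p - 1‖ * (p : ℝ) ^ (-(1 - δ)) +
          ‖- ze θ p‖ * ((p : ℝ) ^ 2) ^ (-(1 - δ))) ≤
      Real.exp (Real.exp 1 * |θ| * (∑ p ∈ PP y, (1 : ℝ) / p) + Real.exp 2) := by
    calc _ ≤ ∏ p ∈ PP y, Real.exp (Real.exp 1 * |θ| * (1 / p) + Real.exp 2 * (1 / (p : ℝ) ^ 2)) := by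
          apply Finset.prod_le_prod
          · intro p hp
            have : (0 : ℝ) ≤ (p : ℝ) ^ (-(1 - δ)) := Real.rpow_nonneg (Nat.cast_nonneg _) _
            have : (0 : ℝ) ≤ ((p : ℝ) ^ 2) ^ (-(1 - δ)) := Real.rpow_nonneg (by positivity) _
            positivity
          · intro p hp
            simp only [PP, mem_filter, mem_Icc] at hp
            have hp0 : (0 : ℝ) < p := by exact_mod_cast hp.2.1.pos
            have hpy : (p : ℝ) ≤ y := by exact_mod_cast hp.1.2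
            have hpδ : (p : ℝ) ^ δ ≤ Real.exp 1 :=
              (Real.rpow_le_rpow hp0.le hpy hδ0).trans hyδ
            have hpδ0 : 0 ≤ (p : ℝ) ^ δ := Real.rpow_nonneg hp0.le _
            have e1 : (p : ℝ) ^ (-(1 - δ)) = (p : ℝ) ^ δ * (1 / p) := by
              rw [neg_sub, Real.rpow_sub hp0, Real.rpow_one]
              ring
            have e2 : ((p : ℝ) ^ 2) ^ (-(1 - δ)) = ((p : ℝ) ^ δ) ^ 2 * (1 / (p : ℝ) ^ 2) := by
              have : ((p : ℝ) ^ 2) ^ (-(1 - δ)) = ((p : ℝ) ^ (-(1 - δ))) ^ 2 := by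
                rw [← Real.rpow_natCast, ← Real.rpow_natCast, ← Real.rpow_mul hp0.le,
                  ← Real.rpow_mul hp0.le]
                ring_nf
              rw [this, e1]
              ring
            have e3 : ‖ze θ p - 1‖ ≤ |θ| := by
              have := norm_exp_sub (θ * (fp p : ℝ)) 0
              simp only [Complex.ofReal_zero, zero_mul, Complex.exp_zero, sub_zero] at this
              refine this.trans ?_
              rw [abs_mul]
              exact mul_le_of_le_one_right (abs_nonneg _) (abs_fp p)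
            have e4 : ‖- ze θ p‖ = 1 := by rw [norm_neg, norm_ze]
            rw [e1, e2, e4]
            have e5 : ((p : ℝ) ^ δ) ^ 2 ≤ Real.exp 2 := by
              calc ((p : ℝ) ^ δ) ^ 2 ≤ (Real.exp 1) ^ 2 := pow_le_pow_left₀ hpδ0 hpδ 2
                _ = Real.exp 2 := by rw [← Real.exp_nat_mul]; norm_num
            have e6 : ‖ze θ p - 1‖ * ((p : ℝ) ^ δ * (1 / p)) ≤ Real.exp 1 * |θ| * (1 / p) := by
              calc ‖ze θ p - 1‖ * ((p : ℝ) ^ δ * (1 / p)) ≤ |θ| * (Real.exp 1 * (1 / p)) := by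
                    gcongr
                _ = _ := by ring
            have e7 : 1 * (((p : ℝ) ^ δ) ^ 2 * (1 / (p : ℝ) ^ 2)) ≤
                Real.exp 2 * (1 / (p : ℝ) ^ 2) := by
              rw [one_mul]; gcongr
            have e8 := Real.add_one_le_exp (Real.exp 1 * |θ| * (1 / p) +
              Real.exp 2 * (1 / (p : ℝ) ^ 2))
            linarith
      _ = Real.exp (Real.exp 1 * |θ| * (∑ p ∈ PP y, (1 : ℝ) / p) +
            Real.exp 2 * ∑ p ∈ PP y, 1 / (p : ℝ) ^ 2) := by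
          rw [← Real.exp_sum, Finset.sum_add_distrib, Finset.mul_sum, Finset.mul_sum]
      _ ≤ _ := by
          apply Real.exp_le_exp.2
          have := sum_sq_PP y hy
          have h0 : 0 < Real.exp 2 := Real.exp_pos _
          nlinarith
  rw [h1, Real.exp_add]
  have h3 : 0 ≤ 2 * (X * Real.exp (-(δ * Real.log X))) := by positivity
  calc _ ≤ 2 * (X * Real.exp (-(δ * Real.log X))) *
        Real.exp (Real.exp 1 * |θ| * (∑ p ∈ PP y, (1 : ℝ) / p) + Real.exp 2) :=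
        mul_le_mul_of_nonneg_left h2 h3
    _ = _ := by ring

/-- prime reciprocal sums in a class mod 12 -/
noncomputable def TT (a y : ℕ) : ℝ :=
  ∑ p ∈ (Icc 1 y).filter (fun p => p.Prime ∧ p % 12 = a), (1 : ℝ) / p

lemma TT_eq (a y : ℕ) : TT a y = ∑ p ∈ (Icc 1 y).filter (fun p => p.Prime),
    (if p % 12 = a then (1 : ℝ) else 0) / p := by
  unfold TT
  rw [← Finset.filter_filter, Finset.sum_filter]
  apply Finset.sum_congr rfl
  intro p _
  split_ifs <;> simp

lemma fp_mod (p : ℕ) : fp p = fp (p % 12) := by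
  have h4 : p % 12 % 4 = p % 4 := Nat.mod_mod_of_dvd p (by norm_num)
  have h3 : p % 12 % 3 = p % 3 := Nat.mod_mod_of_dvd p (by norm_num)
  unfold fp
  rw [h4, h3]

lemma fp_expand (p : ℕ) : (fp p : ℝ) =
    (if p % 12 = 7 then (1 : ℝ) else 0) - (if p % 12 = 11 then (1 : ℝ) else 0) := by
  rw [fp_mod]
  have h : p % 12 < 12 := Nat.mod_lt _ (by norm_num)
  generalize p % 12 = r at h
  interval_cases r <;> simp [fp]

lemma fp_sq_expand (p : ℕ) : (fp p : ℝ) ^ 2 =
    (if p % 12 = 7 then (1 : ℝ) else 0) + (if p % 12 = 11 then (1 : ℝ) else 0) := by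
  rw [fp_mod]
  have h : p % 12 < 12 := Nat.mod_lt _ (by norm_num)
  generalize p % 12 = r at h
  interval_cases r <;> simp [fp]

lemma PP_sum (y : ℕ) (g : ℕ → ℝ) (h2 : g 2 = 0) (h3 : g 3 = 0) :
    ∑ p ∈ PP y, g p = ∑ p ∈ (Icc 1 y).filter (fun p => p.Prime), g p := by
  apply Finset.sum_subset
  · intro p hp
    simp only [PP, mem_filter] at hp ⊢
    exact ⟨hp.1, hp.2.1⟩
  · intro p hp hp2
    simp only [PP, mem_filter] at hp hp2
    by_cases p2 : p = 2
    · rw [p2]; exact h2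
    by_cases p3 : p = 3
    · rw [p3]; exact h3
    exact absurd ⟨hp.1, hp.2, p2, p3⟩ hp2

lemma sum_fp (y : ℕ) : ∑ p ∈ PP y, (fp p : ℝ) / p = TT 7 y - TT 11 y := by
  rw [PP_sum y (fun p => (fp p : ℝ) / p) (by simp [fp_two]) (by simp [fp_three])]
  simp only [TT_eq]
  rw [← Finset.sum_sub_distrib]
  apply Finset.sum_congr rfl
  intro p _
  rw [fp_expand]
  ring

lemma sum_fp_sq (y : ℕ) : ∑ p ∈ PP y, (fp p : ℝ) ^ 2 / p = TT 7 y + TT 11 y := by
  rw [PP_sum y (fun p => (fp p : ℝ) ^ 2 / p) (by simp [fp_two]) (by simp [fp_three])]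
  simp only [TT_eq]
  rw [← Finset.sum_add_distrib]
  apply Finset.sum_congr rfl
  intro p _
  rw [fp_sq_expand]
  ring

lemma TT_bound : ∃ C : ℝ, 0 ≤ C ∧ ∀ y : ℕ, 3 ≤ y → ∀ a ∈ ({7, 11} : Finset ℕ),
    |TT a y - 1 / 4 * Real.log (Real.log y)| ≤ C := by
  have key : ∀ a ∈ ({7, 11} : Finset ℕ), ∃ C : ℝ, 0 ≤ C ∧ ∀ y : ℕ, 3 ≤ y →
      |TT a y - 1 / 4 * Real.log (Real.log y)| ≤ C := by
    intro a ha
    have h1 : a < 12 := by
      fin_cases ha <;> norm_num
    have h2 : a.Coprime 12 := by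
      fin_cases ha <;> norm_num
    obtain ⟨C, hC, h⟩ := Pool.Agent.Y405.CQ.mertens_ap 12 (by norm_num) a h1 h2
    refine ⟨C, hC, fun y hy => ?_⟩
    have h3 := h y hy
    have h4 : ((Nat.totient 12 : ℕ) : ℝ) = 4 := by
      have : Nat.totient 12 = 4 := by decide
      rw [this]; norm_num
    rw [h4] at h3
    exact h3
  choose! C hC h using key
  refine ⟨∑ a ∈ ({7, 11} : Finset ℕ), C a, Finset.sum_nonneg hC, ?_⟩
  intro y hy a ha
  exact (h a ha y hy).trans (Finset.single_le_sum hC ha)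

lemma corr (y : ℕ) (hy : 1 ≤ y) (g : ℕ → ℝ) (hg : ∀ p, |g p| ≤ 1) :
    |∑ p ∈ PP y, g p / ((p : ℝ) + 1) - ∑ p ∈ PP y, g p / p| ≤ 1 := by
  rw [← Finset.sum_sub_distrib]
  refine (Finset.abs_sum_le_sum_abs _ _).trans ((Finset.sum_le_sum ?_).trans (sum_sq_PP y hy))
  intro p hp
  simp only [PP, mem_filter, mem_Icc] at hp
  have hp0 : (0 : ℝ) < p := by exact_mod_cast hp.2.1.pos
  have e1 : g p / ((p : ℝ) + 1) - g p / p = - (g p * (1 / (p * ((p : ℝ) + 1)))) := by
    field_simp; ring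
  rw [e1, abs_neg, abs_mul, abs_of_pos (show (0 : ℝ) < 1 / (p * ((p : ℝ) + 1)) by positivity)]
  calc |g p| * (1 / (p * ((p : ℝ) + 1))) ≤ 1 * (1 / (p * ((p : ℝ) + 1))) := by
        gcongr
        exact hg p
    _ ≤ 1 / (p : ℝ) ^ 2 := by
        rw [one_mul]
        apply one_div_le_one_div_of_le (by positivity)
        nlinarith

theorem prime_sums : ∃ C : ℝ, 0 ≤ C ∧ ∀ y : ℕ, 3 ≤ y →
    |∑ p ∈ PP y, (fp p : ℝ) / ((p : ℝ) + 1)| ≤ C ∧
    |∑ p ∈ PP y, (fp p : ℝ) ^ 2 / ((p : ℝ) + 1) - 1 / 2 * Real.log (Real.log y)| ≤ C ∧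
    ∑ p ∈ PP y, (1 : ℝ) / p ≤ Real.log (Real.log y) + C ∧
    ∀ X : ℕ, y ≤ X → ∑ p ∈ LP y X, (1 : ℝ) / p ≤ Real.log (Real.log X) - Real.log (Real.log y) + C := by
  obtain ⟨C, hC, h⟩ := TT_bound
  obtain ⟨C1, hC1, h1⟩ := Pool.Agent.Y405.CQ.mertens_ap 1 le_rfl 0 one_pos (by norm_num)
  have hall : ∀ y : ℕ, 3 ≤ y → |∑ p ∈ (Icc 1 y).filter (fun p => p.Prime), (1 : ℝ) / p -
      Real.log (Real.log y)| ≤ C1 := by
    intro y hy
    have := h1 y hy
    have e : (Icc 1 y).filter (fun p => p.Prime ∧ p % 1 = 0) = (Icc 1 y).filter (fun p => p.Prime) := by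
      apply Finset.filter_congr
      intro p _
      simp [Nat.mod_one]
    rw [e] at this
    simpa using this
  refine ⟨6 * C + 2 * C1 + 1, by positivity, ?_⟩
  intro y hy
  have t1 := h y hy 7 (by decide)
  have t2 := h y hy 11 (by decide)
  rw [abs_le] at t1 t2
  refine ⟨?_, ?_, ?_, ?_⟩
  · have c1 := corr y (by omega) (fun p => (fp p : ℝ)) abs_fp
    rw [sum_fp] at c1
    rw [abs_le] at c1 ⊢
    constructor <;> linarith [t1.1, t1.2, t2.1, t2.2, c1.1, c1.2]
  · have c1 := corr y (by omega) (fun p => (fp p : ℝ) ^ 2) (by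
      intro p
      rw [abs_pow]
      exact pow_le_one₀ (abs_nonneg _) (abs_fp p))
    rw [sum_fp_sq] at c1
    rw [abs_le] at c1 ⊢
    constructor <;> linarith [t1.1, t1.2, t2.1, t2.2, c1.1, c1.2]
  · have h2 : ∑ p ∈ PP y, (1 : ℝ) / p ≤ ∑ p ∈ (Icc 1 y).filter (fun p => p.Prime), (1 : ℝ) / p := by
      apply Finset.sum_le_sum_of_subset_of_nonneg
      · intro p hp
        simp only [PP, mem_filter] at hp ⊢
        exact ⟨hp.1, hp.2.1⟩
      · intro _ _ _; positivity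
    have h3 := hall y hy
    rw [abs_le] at h3
    linarith [h3.1, h3.2]
  · intro X hX
    have h3 := hall y hy
    have h4 := hall X (hy.trans hX)
    rw [abs_le] at h3 h4
    have h5 : ∑ p ∈ (Icc 1 y).filter (fun p => p.Prime), (1 : ℝ) / p +
        ∑ p ∈ LP y X, (1 : ℝ) / p = ∑ p ∈ (Icc 1 X).filter (fun p => p.Prime), (1 : ℝ) / p := by
      rw [← Finset.sum_union]
      · apply Finset.sum_congr _ (fun _ _ => rfl)
        ext p
        simp only [LP, mem_union, mem_filter, mem_Icc, mem_Ioc]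
        constructor
        · rintro (⟨⟨h1, h2⟩, h3⟩ | ⟨⟨h1, h2⟩, h3⟩)
          · exact ⟨⟨h1, by omega⟩, h3⟩
          · exact ⟨⟨by omega, h2⟩, h3⟩
        · rintro ⟨⟨h1, h2⟩, h3⟩
          by_cases hp : p ≤ y
          · left; exact ⟨⟨h1, hp⟩, h3⟩
          · right; exact ⟨⟨by omega, h2⟩, h3⟩
      · rw [Finset.disjoint_left]
        intro p h1 h2
        simp only [LP, mem_filter, mem_Icc, mem_Ioc] at h1 h2
        omega
    linarith [h3.1, h3.2, h4.1, h4.2]

/-- the base set -/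
def Base (u a X : ℕ) : Finset ℕ := (Icc 1 X).filter (fun n => n % u = a ∧ n % 3 ≠ 0)

section
variable {u a : ℕ}

theorem Co_cop (h : Co u a) {d : ℕ} (hd : Nat.Coprime d 6) : Nat.Coprime u d := by
  obtain ⟨k, hk⟩ := h.pw
  have hc2 : Nat.Coprime d 2 := Nat.Coprime.coprime_dvd_right (by norm_num) hd
  rw [hk]
  exact Nat.Coprime.pow_left _ hc2.symm

theorem cnt_dvd (h : Co u a) (X d : ℕ) (hd : 0 < d) (hc : Nat.Coprime d 6) :
    |(((Base u a X).filter (fun n => d ∣ n)).card : ℝ) - 2 / (3 * u) * (X / d)| ≤ 2 := by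
  have hu := h.pos
  have hc7 : Nat.Coprime d 3 := Nat.Coprime.coprime_dvd_right (by norm_num) hc
  have hc4 : Nat.Coprime u d := Co_cop h hc
  have hcu7 : Nat.Coprime u 3 := by
    obtain ⟨k, hk⟩ := h.pw
    rw [hk]
    exact Nat.Coprime.pow_left _ (by norm_num)
  have hc47 : Nat.Coprime u (3 * d) := Nat.Coprime.mul_right hcu7 hc4
  have h1 := cnt_crt u d a X hu hd h.lt hc4
  have h2 := cnt_crt u (3 * d) a X hu (by positivity) h.lt hc47
  have h3 : ((Base u a X).filter (fun n => d ∣ n)).card +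
      ((Icc 1 X).filter (fun n => n % u = a ∧ (3 * d) ∣ n)).card =
      ((Icc 1 X).filter (fun n => n % u = a ∧ d ∣ n)).card := by
    rw [← Finset.card_union_of_disjoint]
    · congr 1
      ext n
      simp only [Base, mem_union, mem_filter]
      constructor
      · rintro (⟨⟨h1, h2, h3⟩, h4⟩ | ⟨h1, h2, h3⟩)
        · exact ⟨h1, h2, h4⟩
        · exact ⟨h1, h2, (Dvd.intro_left 3 rfl).trans h3⟩
      · rintro ⟨h1, h2, h3⟩
        by_cases h7 : n % 3 = 0
        · right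
          exact ⟨h1, h2, Nat.Coprime.mul_dvd_of_dvd_of_dvd hc7.symm (Nat.dvd_of_mod_eq_zero h7) h3⟩
        · left
          exact ⟨⟨h1, h2, h7⟩, h3⟩
    · rw [Finset.disjoint_left]
      intro n hn1 hn2
      simp only [Base, mem_filter] at hn1 hn2
      exact hn1.1.2.2 (Nat.mod_eq_zero_of_dvd ((Dvd.intro d rfl).trans hn2.2.2))
  have h3' : (((Base u a X).filter (fun n => d ∣ n)).card : ℝ) =
      (((Icc 1 X).filter (fun n => n % u = a ∧ d ∣ n)).card : ℝ) -
      (((Icc 1 X).filter (fun n => n % u = a ∧ (3 * d) ∣ n)).card : ℝ) := by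
    rw [eq_sub_iff_add_eq]; exact_mod_cast h3
  have hd0 : (0 : ℝ) < d := by exact_mod_cast hd
  have hu0 : (0 : ℝ) < u := by exact_mod_cast hu
  have e1 : (2 : ℝ) / (3 * u) * (X / d) = X / ((u : ℕ) * d) - X / ((u : ℕ) * ((3 * d : ℕ) : ℝ)) := by
    push_cast
    field_simp
    ring
  rw [h3', e1]
  rw [abs_le] at h1 h2 ⊢
  constructor <;> linarith [h1.1, h1.2, h2.1, h2.2]

theorem dens_le (h : Co u a) : (2 : ℝ) / (3 * u) ≤ 1 := by
  have hu : 1 ≤ u := h.pos
  have hu1 : (1 : ℝ) ≤ u := by exact_mod_cast hu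
  rw [div_le_one (by positivity)]
  linarith

theorem dens_pos (h : Co u a) : (0 : ℝ) < 2 / (3 * u) := by
  have hu0 : (0 : ℝ) < u := by exact_mod_cast h.pos
  positivity

lemma cnt_dvd2 (h : Co u a) (X d : ℕ) (hd : 0 < d) (hc : Nat.Coprime d 6) {s : ℝ} (hs0 : 0 ≤ s)
    (hs1 : s ≤ 1) :
    |(((Base u a X).filter (fun n => d ∣ n)).card : ℝ) - 2 / (3 * u) * (X / d)| ≤
      2 * ((X : ℝ) / d) ^ s := by
  have hd0 : (0 : ℝ) < d := by exact_mod_cast hd
  by_cases h' : (1 : ℝ) ≤ X / d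
  · have h1 : 1 ≤ ((X : ℝ) / d) ^ s := Real.one_le_rpow h' hs0
    have := cnt_dvd h X d hd hc
    linarith
  · rw [not_le] at h'
    have h0 : (0 : ℝ) ≤ X / d := by positivity
    have h1 : (X : ℝ) / d ≤ ((X : ℝ) / d) ^ s := by
      rcases h0.eq_or_lt with h2 | h2
      · rw [← h2]; exact Real.rpow_nonneg le_rfl _
      · calc (X : ℝ) / d = ((X : ℝ) / d) ^ (1 : ℝ) := (Real.rpow_one _).symm
          _ ≤ ((X : ℝ) / d) ^ s := Real.rpow_le_rpow_of_exponent_ge h2 h'.le hs1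
    have h3 : (((Base u a X).filter (fun n => d ∣ n)).card : ℝ) = 0 := by
      have : (Base u a X).filter (fun n => d ∣ n) = ∅ := by
        apply Finset.filter_eq_empty_iff.2
        intro n hn hdn
        simp only [Base, mem_filter, mem_Icc] at hn
        have h4 := Nat.le_of_dvd (by omega) hdn
        have h5 : (d : ℝ) ≤ X := by exact_mod_cast h4.trans hn.1.2
        rw [div_lt_one hd0] at h'
        linarith
      rw [this]; simp
    have hd1 := dens_le h
    have hd2 := dens_pos h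
    rw [h3, zero_sub, abs_neg, abs_of_nonneg (by positivity)]
    have h4 : 0 ≤ ((X : ℝ) / d) ^ s := Real.rpow_nonneg h0 _
    have h5 : 2 / (3 * (u : ℝ)) * (X / d) ≤ 1 * (X / d) := mul_le_mul_of_nonneg_right hd1 h0
    linarith

theorem rankin (hco : Co u a) (X : ℕ) {s : ℝ} (hs0 : 0 ≤ s) (hs1 : s ≤ 1) (f g : ℕ → ℂ)
    (P : Finset ℕ) (hP : ∀ p ∈ P, p.Prime ∧ p ≠ 2 ∧ p ≠ 3) :
    ∀ d : ℕ, 0 < d → Nat.Coprime d 6 → (∀ p ∈ P, ¬ p ∣ d) →
      ‖∑ n ∈ (Base u a X).filter (fun n => d ∣ n), ∏ p ∈ P, G f g p n -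
        2 / (3 * u) * ((X : ℂ) / d) * ∏ p ∈ P, (1 + f p / p + g p / (p : ℂ) ^ 2)‖ ≤
      2 * ((X : ℝ) / d) ^ s *
        ∏ p ∈ P, (1 + ‖f p‖ * (p : ℝ) ^ (-s) + ‖g p‖ * ((p : ℝ) ^ 2) ^ (-s)) := by
  classical
  induction P using Finset.induction_on with
  | empty =>
    intro d hd hc _
    simp only [Finset.prod_empty, mul_one]
    have h1 := cnt_dvd2 hco X d hd hc hs0 hs1
    have h2 : ∑ n ∈ (Base u a X).filter (fun n => d ∣ n), (1 : ℂ) - 2 / (3 * u) * ((X : ℂ) / d) =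
        (((((Base u a X).filter (fun n => d ∣ n)).card : ℝ) - 2 / (3 * u) * (X / d) : ℝ) : ℂ) := by
      push_cast
      simp
    rw [h2, Complex.norm_real, Real.norm_eq_abs]
    exact h1
  | insert p P hpP ih =>
    intro d hd hc hpd
    have hpp := (hP p (mem_insert_self _ _)).1
    have hp2 := (hP p (mem_insert_self _ _)).2.1
    have hp7 := (hP p (mem_insert_self _ _)).2.2
    have ih' := ih (fun q hq => hP q (mem_insert_of_mem hq))
    have hpd' : ¬ p ∣ d := hpd p (mem_insert_self _ _)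
    have hpos := hpp.pos
    have hp6 : Nat.Coprime p 6 := by
      rw [hpp.coprime_iff_not_dvd]
      intro h
      have : p ∣ 2 * 3 := by simpa using h
      rcases (hpp.dvd_mul).1 this with h | h
      · exact hp2 ((Nat.prime_dvd_prime_iff_eq hpp Nat.prime_two).1 h)
      · exact hp7 ((Nat.prime_dvd_prime_iff_eq hpp (by norm_num)).1 h)
    have hcop1 : Nat.Coprime d p := (hpp.coprime_iff_not_dvd.2 hpd').symm
    have hcop2 : Nat.Coprime d (p ^ 2) := Nat.Coprime.pow_right 2 hcop1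
    have hq1 : ∀ q ∈ P, ¬ q ∣ d * p := by
      intro q hq h
      have hqp := (hP q (mem_insert_of_mem hq)).1
      rcases (hqp.dvd_mul).1 h with h | h
      · exact hpd q (mem_insert_of_mem hq) h
      · have := (Nat.prime_dvd_prime_iff_eq hqp hpp).1 h
        subst this
        exact hpP hq
    have hq2 : ∀ q ∈ P, ¬ q ∣ d * p ^ 2 := by
      intro q hq h
      have hqp := (hP q (mem_insert_of_mem hq)).1
      rcases (hqp.dvd_mul).1 h with h | h
      · exact hpd q (mem_insert_of_mem hq) h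
      · have := (Nat.prime_dvd_prime_iff_eq hqp hpp).1 (hqp.dvd_of_dvd_pow h)
        subst this
        exact hpP hq
    have i0 := ih' d hd hc (fun q hq => hpd q (mem_insert_of_mem hq))
    have i1 := ih' (d * p) (by positivity) (Nat.Coprime.mul_left hc hp6) hq1
    have i2 := ih' (d * p ^ 2) (by positivity)
      (Nat.Coprime.mul_left hc (Nat.Coprime.pow_left 2 hp6)) hq2
    set W : ℕ → ℂ := fun n => ∏ q ∈ P, G f g q n with hW
    set E : ℂ := ∏ q ∈ P, (1 + f q / q + g q / (q : ℂ) ^ 2) with hE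
    set R : ℝ := ∏ q ∈ P, (1 + ‖f q‖ * (q : ℝ) ^ (-s) + ‖g q‖ * ((q : ℝ) ^ 2) ^ (-s)) with hR
    have hsum : ∑ n ∈ (Base u a X).filter (fun n => d ∣ n), ∏ q ∈ insert p P, G f g q n =
        ∑ n ∈ (Base u a X).filter (fun n => d ∣ n), W n +
        f p * ∑ n ∈ (Base u a X).filter (fun n => d * p ∣ n), W n +
        g p * ∑ n ∈ (Base u a X).filter (fun n => d * p ^ 2 ∣ n), W n := by
      have e1 : (Base u a X).filter (fun n => d * p ∣ n) =
          ((Base u a X).filter (fun n => d ∣ n)).filter (fun n => p ∣ n) := by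
        ext n
        simp only [mem_filter]
        constructor
        · rintro ⟨h1, h2⟩
          exact ⟨⟨h1, (Dvd.intro p rfl).trans h2⟩, (Dvd.intro_left d rfl).trans h2⟩
        · rintro ⟨⟨h1, h2⟩, h3⟩
          exact ⟨h1, Nat.Coprime.mul_dvd_of_dvd_of_dvd hcop1 h2 h3⟩
      have e2 : (Base u a X).filter (fun n => d * p ^ 2 ∣ n) =
          ((Base u a X).filter (fun n => d ∣ n)).filter (fun n => p ^ 2 ∣ n) := by
        ext n
        simp only [mem_filter]
        constructor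
        · rintro ⟨h1, h2⟩
          exact ⟨⟨h1, (Dvd.intro (p ^ 2) rfl).trans h2⟩, (Dvd.intro_left d rfl).trans h2⟩
        · rintro ⟨⟨h1, h2⟩, h3⟩
          exact ⟨h1, Nat.Coprime.mul_dvd_of_dvd_of_dvd hcop2 h2 h3⟩
      rw [e1, e2, Finset.sum_filter (s := (Base u a X).filter (fun n => d ∣ n)) (fun n => p ∣ n),
        Finset.sum_filter (s := (Base u a X).filter (fun n => d ∣ n)) (fun n => p ^ 2 ∣ n),
        Finset.mul_sum, Finset.mul_sum, ← Finset.sum_add_distrib, ← Finset.sum_add_distrib]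
      apply Finset.sum_congr rfl
      intro n _
      rw [Finset.prod_insert hpP]
      simp only [hW, G]
      by_cases h1 : p ∣ n <;> by_cases h2 : p ^ 2 ∣ n <;> simp [h1, h2] <;> ring
    rw [hsum, Finset.prod_insert hpP, Finset.prod_insert hpP]
    have hp0 : (p : ℂ) ≠ 0 := by exact_mod_cast hpp.ne_zero
    have hd0 : (d : ℂ) ≠ 0 := by exact_mod_cast hd.ne'
    have hu0 : (u : ℂ) ≠ 0 := by exact_mod_cast hco.pos.ne'
    have key : ∑ n ∈ (Base u a X).filter (fun n => d ∣ n), W n +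
        f p * ∑ n ∈ (Base u a X).filter (fun n => d * p ∣ n), W n +
        g p * ∑ n ∈ (Base u a X).filter (fun n => d * p ^ 2 ∣ n), W n -
        2 / (3 * u) * ((X : ℂ) / d) * ((1 + f p / p + g p / (p : ℂ) ^ 2) * E) =
        (∑ n ∈ (Base u a X).filter (fun n => d ∣ n), W n - 2 / (3 * u) * ((X : ℂ) / d) * E) +
        f p * (∑ n ∈ (Base u a X).filter (fun n => d * p ∣ n), W n -
          2 / (3 * u) * ((X : ℂ) / ((d * p : ℕ) : ℂ)) * E) +
        g p * (∑ n ∈ (Base u a X).filter (fun n => d * p ^ 2 ∣ n), W n -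
          2 / (3 * u) * ((X : ℂ) / ((d * p ^ 2 : ℕ) : ℂ)) * E) := by
      push_cast
      field_simp
      ring
    rw [key]
    have hdr : (0 : ℝ) < d := by exact_mod_cast hd
    have hpr : (0 : ℝ) < p := by exact_mod_cast hpos
    have hXd : (0 : ℝ) ≤ (X : ℝ) / d := by positivity
    have f1 : ((X : ℝ) / ((d * p : ℕ) : ℝ)) ^ s = ((X : ℝ) / d) ^ s * (p : ℝ) ^ (-s) := by
      push_cast
      rw [← div_div, Real.div_rpow hXd hpr.le, Real.rpow_neg hpr.le]
      rfl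
    have f2 : ((X : ℝ) / ((d * p ^ 2 : ℕ) : ℝ)) ^ s = ((X : ℝ) / d) ^ s * ((p : ℝ) ^ 2) ^ (-s) := by
      push_cast
      rw [← div_div, Real.div_rpow hXd (by positivity), Real.rpow_neg (by positivity)]
      rfl
    calc _ ≤ ‖∑ n ∈ (Base u a X).filter (fun n => d ∣ n), W n -
            2 / (3 * u) * ((X : ℂ) / d) * E‖ +
          ‖f p‖ * ‖∑ n ∈ (Base u a X).filter (fun n => d * p ∣ n), W n -
          2 / (3 * u) * ((X : ℂ) / ((d * p : ℕ) : ℂ)) * E‖ +
          ‖g p‖ * ‖∑ n ∈ (Base u a X).filter (fun n => d * p ^ 2 ∣ n), W n -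
          2 / (3 * u) * ((X : ℂ) / ((d * p ^ 2 : ℕ) : ℂ)) * E‖ := by
          refine (norm_add_le _ _).trans (add_le_add ((norm_add_le _ _).trans ?_) ?_)
          · rw [norm_mul]
          · rw [norm_mul]
      _ ≤ 2 * ((X : ℝ) / d) ^ s * R + ‖f p‖ * (2 * ((X : ℝ) / ((d * p : ℕ) : ℝ)) ^ s * R) +
          ‖g p‖ * (2 * ((X : ℝ) / ((d * p ^ 2 : ℕ) : ℝ)) ^ s * R) := by
          gcongr
      _ = _ := by
          rw [f1, f2]; ring

/-- the target set -/
def GS (u a X : ℕ) : Finset ℕ := (Icc 1 X).filter fun D => Squarefree D ∧ D % u = a ∧ D % 3 ≠ 0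

/-- the exponential sum -/
noncomputable def SS (u a X : ℕ) (θ : ℝ) : ℂ :=
  ∑ D ∈ GS u a X, Complex.exp ((θ * (mm D : ℝ) : ℝ) * Complex.I)

lemma GS_eq (X : ℕ) : GS u a X = (Base u a X).filter (fun n => Squarefree n) := by
  ext n
  simp only [GS, Base, mem_filter]
  tauto

lemma pointwise (hco : Co u a) (X y : ℕ) (θ : ℝ) (n : ℕ) (hn : n ∈ Base u a X) :
    ‖∏ p ∈ PP y, G (fun p => ze θ p - 1) (fun p => - ze θ p) p n -
      (if Squarefree n then Complex.exp ((θ * (mm n : ℝ) : ℝ) * Complex.I) else 0)‖ ≤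
    |θ| * (∑ p ∈ LP y X, if p ∣ n then (1 : ℝ) else 0) +
      ∑ p ∈ LP y X, if p ^ 2 ∣ n then (1 : ℝ) else 0 := by
  classical
  have hb := hn
  simp only [Base, mem_filter, mem_Icc] at hb
  obtain ⟨⟨hn1, hnX⟩, hn4, hn7⟩ := hb
  have hn2 := hco.modd hn4
  have hn0 : n ≠ 0 := by omega
  have hA0 : (0 : ℝ) ≤ ∑ p ∈ LP y X, if p ∣ n then (1 : ℝ) else 0 :=
    Finset.sum_nonneg (fun p _ => by split_ifs <;> norm_num)
  have hB0 : (0 : ℝ) ≤ ∑ p ∈ LP y X, if p ^ 2 ∣ n then (1 : ℝ) else 0 :=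
    Finset.sum_nonneg (fun p _ => by split_ifs <;> norm_num)
  by_cases hsq : Squarefree n
  · rw [if_pos hsq]
    have hns : ∀ p ∈ PP y, ¬ p ^ 2 ∣ n := by
      intro p hp h
      simp only [PP, mem_filter] at hp
      have := hsq p (by rw [← pow_two]; exact h)
      exact hp.2.1.one_lt.ne' (Nat.isUnit_iff.1 this)
    have h1 : ∏ p ∈ PP y, G (fun p => ze θ p - 1) (fun p => - ze θ p) p n =
        Complex.exp ((θ * ((∑ p ∈ (PP y).filter (fun p => p ∣ n), fp p : ℤ) : ℝ) : ℝ) *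
          Complex.I) := by
      have e1 : ∏ p ∈ PP y, G (fun p => ze θ p - 1) (fun p => - ze θ p) p n =
          ∏ p ∈ (PP y).filter (fun p => p ∣ n), ze θ p := by
        rw [Finset.prod_filter]
        apply Finset.prod_congr rfl
        intro p hp
        split_ifs with h
        · exact G_one θ p n h (hns p hp)
        · exact G_zero θ p n h
      rw [e1]
      simp only [ze]
      rw [← Complex.exp_sum]
      congr 1
      push_cast
      rw [Finset.mul_sum, Finset.sum_mul]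
    rw [h1]
    refine (norm_exp_sub _ _).trans ?_
    have h2 : mm n = ∑ p ∈ (PP y).filter (fun p => p ∣ n), fp p +
        ∑ p ∈ (LP y X).filter (fun p => p ∣ n), fp p := by
      have hdis : Disjoint ((PP y).filter (fun p => p ∣ n)) ((LP y X).filter (fun p => p ∣ n)) := by
        rw [Finset.disjoint_left]
        intro p h1 h2
        simp only [PP, LP, mem_filter, mem_Icc, mem_Ioc] at h1 h2
        omega
      rw [← Finset.sum_union hdis, mm]
      symm
      apply Finset.sum_subset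
      · intro p hp
        simp only [mem_union, PP, LP, mem_filter, mem_Icc, mem_Ioc] at hp
        rw [Nat.mem_primeFactors]
        rcases hp with hp | hp
        · exact ⟨hp.1.2.1, hp.2, hn0⟩
        · exact ⟨hp.1.2, hp.2, hn0⟩
      · intro p hp hp2
        rw [Nat.mem_primeFactors] at hp
        by_cases p2 : p = 2
        · rw [p2]; exact fp_two
        by_cases p7 : p = 3
        · rw [p7]; exact fp_three
        exfalso
        apply hp2
        simp only [mem_union, PP, LP, mem_filter, mem_Icc, mem_Ioc]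
        have hle := Nat.le_of_dvd (by omega) hp.2.1
        by_cases hpy : p ≤ y
        · left; exact ⟨⟨⟨hp.1.one_lt.le, hpy⟩, hp.1, p2, p7⟩, hp.2.1⟩
        · right; exact ⟨⟨⟨by omega, by omega⟩, hp.1⟩, hp.2.1⟩
    rw [h2, ← mul_sub, abs_mul]
    have h3 : |((∑ p ∈ (PP y).filter (fun p => p ∣ n), fp p : ℤ) : ℝ) -
        ((∑ p ∈ (PP y).filter (fun p => p ∣ n), fp p +
        ∑ p ∈ (LP y X).filter (fun p => p ∣ n), fp p : ℤ) : ℝ)| ≤
        ∑ p ∈ LP y X, if p ∣ n then (1 : ℝ) else 0 := by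
      push_cast
      rw [sub_add_cancel_left, abs_neg]
      refine (Finset.abs_sum_le_sum_abs _ _).trans ?_
      rw [← Finset.sum_filter]
      exact Finset.sum_le_sum (fun p _ => abs_fp p)
    have h4 := mul_le_mul_of_nonneg_left h3 (abs_nonneg θ)
    linarith
  · rw [if_neg hsq, sub_zero]
    have h0 : 0 ≤ |θ| * (∑ p ∈ LP y X, if p ∣ n then (1 : ℝ) else 0) :=
      mul_nonneg (abs_nonneg _) hA0
    obtain ⟨p, hp, hpn⟩ : ∃ p, p.Prime ∧ p ^ 2 ∣ n := by
      by_contra hcon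
      push Not at hcon
      apply hsq
      rw [Nat.squarefree_iff_prime_squarefree]
      intro p hp h
      exact hcon p hp (by rw [pow_two]; exact h)
    have hpd : p ∣ n := (Dvd.intro_left (p ^ 1) (by ring)).trans hpn
    have p2 : p ≠ 2 := by
      rintro rfl
      omega
    have p7 : p ≠ 3 := by
      rintro rfl
      omega
    by_cases hpy : p ≤ y
    · have hmem : p ∈ PP y := by
        simp only [PP, mem_filter, mem_Icc]
        exact ⟨⟨hp.one_lt.le, hpy⟩, hp, p2, p7⟩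
      rw [Finset.prod_eq_zero hmem (G_sq θ p n hpn), norm_zero]
      linarith
    · have hmem : p ∈ LP y X := by
        simp only [LP, mem_filter, mem_Ioc]
        have hle := Nat.le_of_dvd (by omega) hpd
        exact ⟨⟨by omega, by omega⟩, hp⟩
      have h5 : ‖∏ p ∈ PP y, G (fun p => ze θ p - 1) (fun p => - ze θ p) p n‖ ≤ 1 := by
        rw [norm_prod]
        exact Finset.prod_le_one (fun _ _ => norm_nonneg _) (fun p _ => norm_G_le θ p n)
      have h6 : (1 : ℝ) ≤ ∑ p ∈ LP y X, if p ^ 2 ∣ n then (1 : ℝ) else 0 := by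
        calc (1 : ℝ) = if p ^ 2 ∣ n then (1 : ℝ) else 0 := by rw [if_pos hpn]
          _ ≤ _ := Finset.single_le_sum (f := fun p => if p ^ 2 ∣ n then (1 : ℝ) else 0)
              (fun q _ => by split_ifs <;> norm_num) hmem
      linarith

lemma card_dvd_le (X d : ℕ) :
    ∑ n ∈ Base u a X, (if d ∣ n then (1 : ℝ) else 0) ≤ X / d := by
  rw [← Finset.sum_filter]
  simp only [Finset.sum_const, nsmul_eq_mul, mul_one]
  have h1 : ((Base u a X).filter (fun n => d ∣ n)).card ≤ X / d := by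
    have h2 : (Base u a X).filter (fun n => d ∣ n) ⊆ (Ioc 0 X).filter (fun n => d ∣ n) := by
      intro n hn
      simp only [Base, mem_filter, mem_Icc, mem_Ioc] at hn ⊢
      exact ⟨⟨by omega, hn.1.1.2⟩, hn.2⟩
    refine (Finset.card_le_card h2).trans ?_
    rw [Nat.Ioc_filter_dvd_card_eq_div]
  calc (((Base u a X).filter (fun n => d ∣ n)).card : ℝ) ≤ ((X / d : ℕ) : ℝ) := by exact_mod_cast h1
    _ ≤ X / d := Nat.cast_div_le

theorem compare (hco : Co u a) (X y : ℕ) (θ : ℝ) :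
    ‖∑ n ∈ Base u a X, ∏ p ∈ PP y, G (fun p => ze θ p - 1) (fun p => - ze θ p) p n -
      SS u a X θ‖ ≤
    |θ| * (X * ∑ p ∈ LP y X, (1 : ℝ) / p) + X * ∑ p ∈ LP y X, (1 : ℝ) / (p : ℝ) ^ 2 := by
  have h1 : SS u a X θ = ∑ n ∈ Base u a X,
      (if Squarefree n then Complex.exp ((θ * (mm n : ℝ) : ℝ) * Complex.I) else 0) := by
    rw [SS, GS_eq, Finset.sum_filter]
  rw [h1, ← Finset.sum_sub_distrib]
  refine (norm_sum_le _ _).trans ?_
  refine (Finset.sum_le_sum (fun n hn => pointwise hco X y θ n hn)).trans ?_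
  rw [Finset.sum_add_distrib, ← Finset.mul_sum, Finset.sum_comm (s := Base u a X),
    Finset.sum_comm (s := Base u a X)]
  refine add_le_add (mul_le_mul_of_nonneg_left ?_ (abs_nonneg _)) ?_
  · rw [Finset.mul_sum]
    apply Finset.sum_le_sum
    intro p _
    refine (card_dvd_le X p).trans (le_of_eq (by ring))
  · rw [Finset.mul_sum]
    apply Finset.sum_le_sum
    intro p _
    refine (card_dvd_le X (p ^ 2)).trans (le_of_eq (by push_cast; ring))

/-- The combined estimate for the exponential sum. -/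
theorem SS_est (hco : Co u a) (X y : ℕ) (hX : 1 ≤ X) (hy : 1 ≤ y) (δ : ℝ) (hδ0 : 0 ≤ δ)
    (hδ1 : δ ≤ 1) (hyδ : (y : ℝ) ^ δ ≤ Real.exp 1) (θ : ℝ) :
    ‖SS u a X θ / X - 2 / (3 * u) * KK y * ∏ p ∈ PP y, av θ p‖ ≤
      2 * Real.exp (- (δ * Real.log X) +
        (Real.exp 1 * |θ| * (∑ p ∈ PP y, (1 : ℝ) / p) + Real.exp 2)) +
      |θ| * (∑ p ∈ LP y X, (1 : ℝ) / p) + 1 / y := by
  have hX0 : (0 : ℝ) < X := by exact_mod_cast hX
  have hXc : (X : ℂ) ≠ 0 := by exact_mod_cast hX0.ne'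
  have hu0 : (u : ℂ) ≠ 0 := by exact_mod_cast hco.pos.ne'
  have h1 := rankin hco X (s := 1 - δ) (by linarith) (by linarith) (fun p => ze θ p - 1)
    (fun p => - ze θ p) (PP y) (by
      intro p hp
      simp only [PP, mem_filter] at hp
      exact ⟨hp.2.1, hp.2.2.1, hp.2.2.2⟩) 1 one_pos (by norm_num) (by
      intro p hp h
      simp only [PP, mem_filter] at hp
      exact hp.2.1.one_lt.ne' (Nat.dvd_one.1 h))
  rw [main_factor] at h1
  have h2 : (Base u a X).filter (fun n => 1 ∣ n) = Base u a X := by simp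
  rw [h2] at h1
  have h3 := h1.trans (err X y hX hy δ hδ0 hyδ θ)
  have h4 := compare hco X y θ
  have h5 := sum_sq_LP y X hy
  set H : ℂ := ∑ n ∈ Base u a X, ∏ p ∈ PP y, G (fun p => ze θ p - 1) (fun p => - ze θ p) p n with hH
  have e1 : SS u a X θ / X - 2 / (3 * u) * KK y * ∏ p ∈ PP y, av θ p =
      ((H - 2 / (3 * u) * ((X : ℂ) / (1 : ℕ)) * ((KK y : ℂ) * ∏ p ∈ PP y, av θ p)) -
        (H - SS u a X θ)) / X := by
    push_cast
    field_simp
    ring
  rw [e1, norm_div]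
  have e2 : ‖(X : ℂ)‖ = X := by simp
  rw [e2, div_le_iff₀ hX0]
  refine (norm_sub_le _ _).trans ?_
  have h6 : X * ∑ p ∈ LP y X, (1 : ℝ) / (p : ℝ) ^ 2 ≤ X * (1 / y) :=
    mul_le_mul_of_nonneg_left h5 hX0.le
  calc _ ≤ 2 * X * Real.exp (- (δ * Real.log X) +
      (Real.exp 1 * |θ| * (∑ p ∈ PP y, (1 : ℝ) / p) + Real.exp 2)) +
      (|θ| * (X * ∑ p ∈ LP y X, (1 : ℝ) / p) + X * ∑ p ∈ LP y X, (1 : ℝ) / (p : ℝ) ^ 2) :=
        add_le_add h3 h4
    _ ≤ 2 * X * Real.exp (- (δ * Real.log X) +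
      (Real.exp 1 * |θ| * (∑ p ∈ PP y, (1 : ℝ) / p) + Real.exp 2)) +
      (|θ| * (X * ∑ p ∈ LP y X, (1 : ℝ) / p) + X * (1 / y)) := by linarith
    _ = _ := by ring

theorem main_lim (hco : Co u a) (t : ℝ) : Tendsto (fun X : ℕ => SS u a X (th t X) / X -
    2 / (3 * u) * KK (yy X) * Complex.exp (-((t : ℂ) ^ 2 / 2))) atTop (𝓝 0) := by
  obtain ⟨C, hC, hps⟩ := prime_sums
  set A : ℕ → ℝ := fun X => ∑ p ∈ PP (yy X), (fp p : ℝ) / ((p : ℝ) + 1) with hA
  set B : ℕ → ℝ := fun X => ∑ p ∈ PP (yy X), (fp p : ℝ) ^ 2 / ((p : ℝ) + 1) with hB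
  set w : ℕ → ℝ := fun X => Real.log (Real.log (yy X)) with hw
  have hev := props
  have hthabs : Tendsto (fun X => |th t X|) atTop (𝓝 0) := by
    have := (tendsto_th t).abs
    rwa [abs_zero] at this
  -- part 1
  have p1 : Tendsto (fun X : ℕ => SS u a X (th t X) / X -
      2 / (3 * u) * KK (yy X) * ∏ p ∈ PP (yy X), av (th t X) p) atTop (𝓝 0) := by
    rw [tendsto_zero_iff_norm_tendsto_zero]
    have hb1 : Tendsto (fun X => 2 * Real.exp (-(LL X) / 2 + (C / 2 + Real.exp 2))) atTop (𝓝 0) := by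
      have h1 : Tendsto (fun X => -(LL X) / 2 + (C / 2 + Real.exp 2)) atTop atBot := by
        apply tendsto_atBot_add_const_right
        have h2 : Tendsto (fun X => LL X / 2) atTop atTop := tendsto_LL.atTop_div_const (by norm_num)
        have h3 := tendsto_neg_atTop_atBot.comp h2
        refine h3.congr (fun X => ?_)
        simp only [Function.comp]
        ring
      have h2 := (Real.tendsto_exp_atBot.comp h1).const_mul 2
      rw [mul_zero] at h2
      exact h2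
    have hb2 : Tendsto (fun X => |th t X| * (Real.log (LL X) + Real.log 2 + C)) atTop (𝓝 0) :=
      tendsto_th_log t C
    have hb3 : Tendsto (fun X => 1 / (yy X : ℝ)) atTop (𝓝 0) :=
      tendsto_one_div_atTop_nhds_zero_nat.comp tendsto_yy
    have hb := (hb1.add hb2).add hb3
    rw [add_zero, add_zero] at hb
    refine squeeze_zero' (Eventually.of_forall fun _ => norm_nonneg _) ?_ hb
    have hsmall : ∀ᶠ X in atTop, |th t X| < 1 / (2 * Real.exp 1) := by
      apply hthabs.eventually_lt_const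
      positivity
    filter_upwards [hev, hsmall] with X hX hth
    obtain ⟨h1, h2, h3, h4, h5, h6, h7, h8⟩ := hX
    obtain ⟨q1, q2, q3, q4⟩ := hps (yy X) h2
    have hL0 : 0 < Real.log X := by linarith
    have hest := SS_est hco X (yy X) h1 (by omega) (LL X / Real.log X)
      (div_nonneg (by linarith) hL0.le) (by rw [div_le_one hL0]; exact h5) h6 (th t X)
    refine hest.trans ?_
    have e1 : LL X / Real.log X * Real.log X = LL X := by field_simp
    rw [e1]
    have q4' := q4 X h3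
    have hth0 := abs_nonneg (th t X)
    have b1 : -(LL X) + (Real.exp 1 * |th t X| * (∑ p ∈ PP (yy X), (1 : ℝ) / p) + Real.exp 2) ≤
        -(LL X) / 2 + (C / 2 + Real.exp 2) := by
      have c1 : Real.exp 1 * |th t X| ≤ 1 / 2 := by
        have hp : 0 < Real.exp 1 := Real.exp_pos 1
        calc Real.exp 1 * |th t X| ≤ Real.exp 1 * (1 / (2 * Real.exp 1)) :=
              mul_le_mul_of_nonneg_left hth.le hp.le
          _ = 1 / 2 := by field_simp
      have c2 : 0 ≤ ∑ p ∈ PP (yy X), (1 : ℝ) / p := Finset.sum_nonneg (fun _ _ => by positivity)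
      have c3 : Real.exp 1 * |th t X| * (∑ p ∈ PP (yy X), (1 : ℝ) / p) ≤
          1 / 2 * (LL X + C) := by
        calc Real.exp 1 * |th t X| * (∑ p ∈ PP (yy X), (1 : ℝ) / p) ≤
            1 / 2 * (∑ p ∈ PP (yy X), (1 : ℝ) / p) := mul_le_mul_of_nonneg_right c1 c2
          _ ≤ 1 / 2 * (LL X + C) := by
            apply mul_le_mul_of_nonneg_left _ (by norm_num)
            linarith
      linarith
    have b2 : |th t X| * (∑ p ∈ LP (yy X) X, (1 : ℝ) / p) ≤
        |th t X| * (Real.log (LL X) + Real.log 2 + C) := by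
      apply mul_le_mul_of_nonneg_left _ hth0
      have : Real.log (Real.log X) = LL X := rfl
      linarith
    have b3 := Real.exp_le_exp.2 b1
    linarith
  -- part 2
  have p2 : Tendsto (fun X : ℕ => ∏ p ∈ PP (yy X), av (th t X) p -
      Complex.exp (((th t X * A X : ℝ) : ℂ) * Complex.I - ((th t X ^ 2 / 2 * B X : ℝ) : ℂ)))
      atTop (𝓝 0) := by
    rw [tendsto_zero_iff_norm_tendsto_zero]
    have hb1 : Tendsto (fun X => |th t X| * (2 * t ^ 2) + |th t X| ^ 3 * C + 4 * |th t X| ^ 2)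
        atTop (𝓝 (0 * (2 * t ^ 2) + 0 ^ 3 * C + 4 * 0 ^ 2)) :=
      ((hthabs.mul_const _).add ((hthabs.pow 3).mul_const C)).add ((hthabs.pow 2).const_mul 4)
    have : (0 : ℝ) * (2 * t ^ 2) + 0 ^ 3 * C + 4 * 0 ^ 2 = 0 := by ring
    rw [this] at hb1
    refine squeeze_zero' (Eventually.of_forall fun _ => norm_nonneg _) ?_ hb1
    have hsmall : ∀ᶠ X in atTop, |th t X| < 1 := hthabs.eventually_lt_const one_pos
    filter_upwards [hev, hsmall] with X hX hth
    obtain ⟨h1, h2, h3, h4, h5, h6, h7, h8⟩ := hX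
    obtain ⟨q1, q2, q3, q4⟩ := hps (yy X) h2
    have hest := prod_av (th t X) hth.le (PP (yy X)) (by
      intro p hp
      simp only [PP, mem_filter, mem_Icc] at hp
      exact hp.1.1)
    refine hest.trans ?_
    have hsq := sum_sq_PP (yy X) (by omega)
    have hth0 := abs_nonneg (th t X)
    have hq := th_sq t X (by linarith)
    have hLL0 : 0 < LL X := by linarith
    have c1 : |th t X| ^ 3 * (∑ p ∈ PP (yy X), (1 : ℝ) / p) ≤
        |th t X| * (2 * t ^ 2) + |th t X| ^ 3 * C := by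
      calc |th t X| ^ 3 * (∑ p ∈ PP (yy X), (1 : ℝ) / p) ≤ |th t X| ^ 3 * (LL X + C) := by
            apply mul_le_mul_of_nonneg_left _ (by positivity)
            linarith
        _ = |th t X| * (|th t X| ^ 2 * LL X) + |th t X| ^ 3 * C := by ring
        _ = |th t X| * (2 * t ^ 2) + |th t X| ^ 3 * C := by
            rw [sq_abs, hq]
            field_simp
    have c2 : 4 * |th t X| ^ 2 * (∑ p ∈ PP (yy X), (1 : ℝ) / (p : ℝ) ^ 2) ≤ 4 * |th t X| ^ 2 :=
      mul_le_of_le_one_right (by positivity) hsq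
    linarith
  -- part 3
  have p3 : Tendsto (fun X : ℕ => Complex.exp (((th t X * A X : ℝ) : ℂ) * Complex.I -
      ((th t X ^ 2 / 2 * B X : ℝ) : ℂ))) atTop (𝓝 (Complex.exp (-((t : ℂ) ^ 2 / 2)))) := by
    have hθA : Tendsto (fun X => th t X * A X) atTop (𝓝 0) := by
      rw [tendsto_zero_iff_abs_tendsto_zero]
      have hb := hthabs.mul_const C
      rw [zero_mul] at hb
      refine squeeze_zero' (Eventually.of_forall fun _ => abs_nonneg _) ?_ hb
      filter_upwards [hev] with X hX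
      obtain ⟨h1, h2, h3, h4, h5, h6, h7, h8⟩ := hX
      obtain ⟨q1, q2, q3, q4⟩ := hps (yy X) h2
      simp only [Function.comp, abs_mul]
      exact mul_le_mul_of_nonneg_left q1 (abs_nonneg _)
    have hratio : Tendsto (fun X => w X / LL X) atTop (𝓝 1) := by
      have hlow : Tendsto (fun X => 1 - Real.log (LL X) / LL X - Real.log 2 / LL X) atTop
          (𝓝 (1 - 0 - 0)) :=
        (tendsto_const_nhds.sub tendsto_log_LL_div).sub (tendsto_LL.const_div_atTop _)
      rw [sub_zero, sub_zero] at hlow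
      refine tendsto_of_tendsto_of_tendsto_of_le_of_le' hlow tendsto_const_nhds ?_ ?_
      · filter_upwards [hev] with X hX
        obtain ⟨h1, h2, h3, h4, h5, h6, h7, h8⟩ := hX
        have hLL0 : 0 < LL X := by linarith
        rw [le_div_iff₀ hLL0]
        have : (1 - Real.log (LL X) / LL X - Real.log 2 / LL X) * LL X =
            LL X - Real.log (LL X) - Real.log 2 := by field_simp
        rw [this]
        exact h8
      · filter_upwards [hev] with X hX
        obtain ⟨h1, h2, h3, h4, h5, h6, h7, h8⟩ := hX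
        have hLL0 : 0 < LL X := by linarith
        rw [div_le_one hLL0]
        exact h7
    have hθB : Tendsto (fun X => th t X ^ 2 / 2 * B X) atTop (𝓝 (t ^ 2 / 2)) := by
      have hd : Tendsto (fun X => th t X ^ 2 / 2 * (B X - 1 / 2 * w X)) atTop (𝓝 0) := by
        rw [tendsto_zero_iff_abs_tendsto_zero]
        have hb := ((hthabs.pow 2).div_const 2).mul_const C
        have e0 : (0 : ℝ) ^ 2 / 2 * C = 0 := by ring
        rw [e0] at hb
        refine squeeze_zero' (Eventually.of_forall fun _ => abs_nonneg _) ?_ hb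
        filter_upwards [hev] with X hX
        obtain ⟨h1, h2, h3, h4, h5, h6, h7, h8⟩ := hX
        obtain ⟨q1, q2, q3, q4⟩ := hps (yy X) h2
        simp only [Function.comp, abs_mul, abs_div, abs_pow, abs_two]
        exact mul_le_mul_of_nonneg_left q2 (by positivity)
      have hm : Tendsto (fun X => t ^ 2 / 2 * (w X / LL X)) atTop (𝓝 (t ^ 2 / 2)) := by
        have := hratio.const_mul (t ^ 2 / 2)
        rwa [mul_one] at this
      have hs := hd.add hm
      rw [zero_add] at hs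
      refine hs.congr' ?_
      filter_upwards [hev] with X hX
      obtain ⟨h1, h2, h3, h4, h5, h6, h7, h8⟩ := hX
      have hLL0 : 0 < LL X := by linarith
      rw [th_sq t X hLL0]
      field_simp
      ring
    have hc1 : Tendsto (fun X => ((th t X * A X : ℝ) : ℂ)) atTop (𝓝 ((0 : ℝ) : ℂ)) :=
      (Complex.continuous_ofReal.tendsto _).comp hθA
    have hc2 : Tendsto (fun X => ((th t X ^ 2 / 2 * B X : ℝ) : ℂ)) atTop
        (𝓝 ((t ^ 2 / 2 : ℝ) : ℂ)) :=
      (Complex.continuous_ofReal.tendsto _).comp hθB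
    have hc := (hc1.mul_const Complex.I).sub hc2
    have he : ((0 : ℝ) : ℂ) * Complex.I - ((t ^ 2 / 2 : ℝ) : ℂ) = -((t : ℂ) ^ 2 / 2) := by
      push_cast; ring
    rw [he] at hc
    exact (Complex.continuous_exp.tendsto _).comp hc
  -- combine
  have p4 : Tendsto (fun X : ℕ => ∏ p ∈ PP (yy X), av (th t X) p -
      Complex.exp (-((t : ℂ) ^ 2 / 2))) atTop (𝓝 0) := by
    have h := p2.add (p3.sub_const (Complex.exp (-((t : ℂ) ^ 2 / 2))))
    rw [sub_self, add_zero] at h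
    refine h.congr (fun X => ?_)
    ring
  have p5 : Tendsto (fun X : ℕ => (2 / (3 * u) * (KK (yy X) : ℂ)) *
      (∏ p ∈ PP (yy X), av (th t X) p - Complex.exp (-((t : ℂ) ^ 2 / 2)))) atTop (𝓝 0) := by
    rw [tendsto_zero_iff_norm_tendsto_zero] at p4 ⊢
    refine squeeze_zero' (Eventually.of_forall fun _ => norm_nonneg _) ?_ p4
    filter_upwards [hev] with X hX
    rw [norm_mul]
    apply mul_le_of_le_one_left (norm_nonneg _)
    have k1 := KK_ge (yy X) (by omega)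
    have k2 := KK_le (yy X)
    have e : (2 / (3 * u) * (KK (yy X) : ℂ)) = ((2 / (3 * u) * KK (yy X) : ℝ) : ℂ) := by
      push_cast; rfl
    have d1 := dens_le hco
    have d2 := dens_pos hco
    rw [e, Complex.norm_real, Real.norm_eq_abs, abs_le]
    constructor
    · have : (0 : ℝ) ≤ 2 / (3 * u) * KK (yy X) := mul_nonneg d2.le (by linarith)
      linarith
    · exact mul_le_one₀ d1 (by linarith) k2
  have h := p1.add p5
  rw [add_zero] at h
  refine h.congr (fun X => ?_)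
  ring

lemma SS_zero (X : ℕ) : SS u a X 0 = ((GS u a X).card : ℂ) := by
  unfold SS
  simp

/-- the class has positive density -/
theorem card_low (hco : Co u a) : ∀ᶠ X : ℕ in atTop,
    2 / (7 * (u : ℝ)) ≤ ((GS u a X).card : ℝ) / X ∧ 1 ≤ X := by
  have h0 : Tendsto (fun X : ℕ => ((GS u a X).card : ℂ) / X - 2 / (3 * u) * KK (yy X)) atTop
      (𝓝 0) := by
    have h := main_lim hco 0
    refine h.congr (fun X => ?_)
    have e1 : th 0 X = 0 := by simp [th]
    rw [e1, SS_zero]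
    simp
  have hu0 : (0 : ℝ) < u := by exact_mod_cast hco.pos
  have h3 : ∀ᶠ X : ℕ in atTop, ‖((GS u a X).card : ℂ) / X - 2 / (3 * u) * KK (yy X)‖ <
      1 / (21 * u) := by
    have := (tendsto_zero_iff_norm_tendsto_zero.1 h0).eventually_lt_const
      (show (0 : ℝ) < 1 / (21 * u) by positivity)
    exact this
  filter_upwards [h3, props] with X hX hp
  refine ⟨?_, hp.1⟩
  have k1 := KK_ge (yy X) (by omega)
  have e : ((GS u a X).card : ℂ) / X - 2 / (3 * u) * KK (yy X) =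
      ((((GS u a X).card : ℝ) / X - 2 / (3 * u) * KK (yy X) : ℝ) : ℂ) := by push_cast; rfl
  rw [e, Complex.norm_real, Real.norm_eq_abs, abs_lt] at hX
  have h5 : 2 / (3 * (u : ℝ)) * (1 / 2) ≤ 2 / (3 * u) * KK (yy X) :=
    mul_le_mul_of_nonneg_left k1 (dens_pos hco).le
  have h6 : 2 / (3 * (u : ℝ)) * (1 / 2) = 2 / (7 * u) + 1 / (21 * u) := by
    field_simp
    norm_num
  linarith [hX.1]

theorem char_lim (hco : Co u a) (t : ℝ) : Tendsto (fun X : ℕ => ((GS u a X).card : ℂ)⁻¹ *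
    SS u a X (th t X)) atTop (𝓝 (Complex.exp (-((t : ℂ) ^ 2 / 2)))) := by
  have h1 := main_lim hco t
  have h0 : Tendsto (fun X : ℕ => ((GS u a X).card : ℂ) / X - 2 / (3 * u) * KK (yy X)) atTop
      (𝓝 0) := by
    have h := main_lim hco 0
    refine h.congr (fun X => ?_)
    have e1 : th 0 X = 0 := by simp [th]
    rw [e1, SS_zero]
    simp
  set E : ℂ := Complex.exp (-((t : ℂ) ^ 2 / 2)) with hE
  have h2 : Tendsto (fun X : ℕ => SS u a X (th t X) / X - ((GS u a X).card : ℂ) / X * E) atTop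
      (𝓝 0) := by
    have h := h1.sub (h0.mul_const E)
    rw [zero_mul, sub_zero] at h
    refine h.congr (fun X => ?_)
    ring
  have hu0 : (0 : ℝ) < u := by exact_mod_cast hco.pos
  have hlow := card_low hco
  rw [tendsto_iff_norm_sub_tendsto_zero]
  rw [tendsto_zero_iff_norm_tendsto_zero] at h2
  have h4 := h2.mul_const (7 * u / 2 : ℝ)
  rw [zero_mul] at h4
  refine squeeze_zero' (Eventually.of_forall fun _ => norm_nonneg _) ?_ h4
  filter_upwards [hlow] with X hX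
  obtain ⟨hX1, hX2⟩ := hX
  have hX0 : (0 : ℝ) < X := by exact_mod_cast hX2
  have hc : (0 : ℝ) < (GS u a X).card := by
    have : 0 < ((GS u a X).card : ℝ) / X := lt_of_lt_of_le (by positivity) hX1
    rcases lt_or_ge 0 ((GS u a X).card : ℝ) with h | h
    · exact h
    · exfalso
      have := div_nonpos_of_nonpos_of_nonneg h hX0.le
      linarith
  have hXc : (X : ℂ) ≠ 0 := by exact_mod_cast hX0.ne'
  have hcc : ((GS u a X).card : ℂ) ≠ 0 := by exact_mod_cast hc.ne'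
  have e1 : ((GS u a X).card : ℂ)⁻¹ * SS u a X (th t X) - E =
      (SS u a X (th t X) / X - ((GS u a X).card : ℂ) / X * E) * ((X : ℂ) / (GS u a X).card) := by
    field_simp
  rw [e1, norm_mul]
  apply mul_le_mul_of_nonneg_left _ (norm_nonneg _)
  rw [norm_div, Complex.norm_natCast, Complex.norm_natCast]
  rw [div_le_iff₀ hc]
  rw [le_div_iff₀ hX0] at hX1
  have h7 : (7 * (u : ℝ) / 2) * (2 / (7 * u) * X) ≤ 7 * u / 2 * (GS u a X).card :=
    mul_le_mul_of_nonneg_left hX1 (by positivity)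
  have h8 : (7 * (u : ℝ) / 2) * (2 / (7 * u) * X) = X := by
    field_simp
  linarith

theorem half_lim (hco : Co u a) (M : ℕ) : Tendsto (fun X : ℕ =>
    (((GS u a X).filter (fun D => (M : ℤ) ≤ mm D)).card : ℝ) / (GS u a X).card) atTop
      (𝓝 (1 / 2)) := by
  obtain ⟨N, hN⟩ := (eventually_atTop.1 (card_low hco))
  have hne : ∀ n, (GS u a (n + (N + 1))).Nonempty := by
    intro n
    obtain ⟨h1, h2⟩ := hN (n + (N + 1)) (by omega)
    rw [nonempty_iff_ne_empty]
    intro h3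
    rw [h3] at h1
    have hu0 : (0 : ℝ) < u := by exact_mod_cast hco.pos
    have : (0 : ℝ) < 2 / (7 * u) := by positivity
    simp at h1
    linarith
  rw [← tendsto_add_atTop_iff_nat (N + 1)]
  have h := levy_half (fun n => GS u a (n + (N + 1))) hne
    (fun n D => ((mm D : ℝ) - M) / Real.sqrt (LL (n + (N + 1)) / 2)) (by
      intro t
      have h1 := (char_lim hco t).comp (tendsto_add_atTop_nat (N + 1))
      have h2 : Tendsto (fun n : ℕ => Complex.exp (((-(th t (n + (N + 1)) * M) : ℝ) : ℂ) *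
          Complex.I)) atTop (𝓝 (Complex.exp (((-(0 * (M : ℝ)) : ℝ) : ℂ) * Complex.I))) := by
        have h3 : Tendsto (fun n : ℕ => (-(th t (n + (N + 1)) * M) : ℝ)) atTop
            (𝓝 (-(0 * (M : ℝ)))) :=
          (((tendsto_th t).comp (tendsto_add_atTop_nat (N + 1))).mul_const _).neg
        exact (Complex.continuous_exp.tendsto _).comp
          (((Complex.continuous_ofReal.tendsto _).comp h3).mul_const _)
      have h4 := h1.mul h2
      have e0 : Complex.exp (((-(0 * (M : ℝ)) : ℝ) : ℂ) * Complex.I) = 1 := by simp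
      rw [e0, mul_one] at h4
      refine h4.congr (fun n => ?_)
      simp only [Function.comp, SS]
      rw [mul_assoc, Finset.sum_mul]
      congr 1
      apply Finset.sum_congr rfl
      intro D _
      rw [← Complex.exp_add]
      congr 1
      unfold th
      push_cast
      ring)
  refine h.congr' ?_
  have hLL := tendsto_LL.comp (tendsto_add_atTop_nat (N + 1))
  filter_upwards [hLL.eventually_gt_atTop 0] with n hn
  simp only [Function.comp] at hn
  congr 3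
  apply Finset.filter_congr
  intro D _
  have hs : 0 < Real.sqrt (LL (n + (N + 1)) / 2) := Real.sqrt_pos.2 (by linarith)
  rw [le_div_iff₀ hs, zero_mul, sub_nonneg]
  constructor
  · intro h; exact_mod_cast h
  · intro h; exact_mod_cast h

end

end Pool.Agent.L0h74.T3.S4
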