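import Mathlib
import Pool.Agent.L0h74.T3.Stm

/-! # ND-NEG: `kd` is not negative for the good sets -/

set_option autoImplicit false

open scoped Classical

namespace Pool.Agent.L0h74.T3.NEG

open Finset
open Pool.Agent.N973.ND (card_Z)
open Pool.Agent.L0h74.T3

theorem t_NEG : S_NEG := by
  intro A b S hS hG
  obtain ⟨h1, -⟩ := hG
  have h2 := card_Z h1
  set Sp := univ.filter fun i : S => m3 (i : ℕ) = 1 with hSp
  set Pc := univ.filter fun i : S => ty (i : ℕ) = 2 ∨ ty (i : ℕ) = 1 with hPc
  have h3 : Pc.card ≤ Sp.card := by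
    by_contra hc
    push Not at hc
    have h4 : 2 ^ Sp.card < 2 ^ Pc.card := Nat.pow_lt_pow_right (by norm_num) hc
    have h5 : 0 < 2 ^ Sp.card := by positivity
    rw [← h2] at h5 h4
    have h7 := Nat.le_mul_of_pos_left (2 ^ Pc.card) (pos_of_mul_pos_left h5 (Nat.zero_le _))
    exact absurd h7 (not_le.2 h4)
  have e1 : Sp.card = (S.filter fun p => m3 p = 1).card := by
    rw [hSp, ← Finset.card_map (Function.Embedding.subtype _)]
    congr 1
    ext p
    simp [and_comm]
  have e2 : Pc.card = (S.filter fun p => ty p = 2 ∨ ty p = 1).card := by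
    rw [hPc, ← Finset.card_map (Function.Embedding.subtype _)]
    congr 1
    ext p
    simp [and_comm]
  have t1 : (S.filter fun p => m3 p = 1) =
      (S.filter fun p => ty p = 2) ∪ (S.filter fun p => ty p = 3) := by
    rw [← filter_or]
    apply filter_congr
    intro p _
    have := m3_le p
    unfold ty
    split_ifs <;> omega
  have t2 : (S.filter fun p => ty p = 2 ∨ ty p = 1) =
      (S.filter fun p => ty p = 2) ∪ (S.filter fun p => ty p = 1) := filter_or _ _ _
  have d1 : Disjoint (S.filter fun p => ty p = 2) (S.filter fun p => ty p = 3) := by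
    rw [disjoint_filter]
    intro p _ h
    omega
  have d2 : Disjoint (S.filter fun p => ty p = 2) (S.filter fun p => ty p = 1) := by
    rw [disjoint_filter]
    intro p _ h
    omega
  rw [e1, e2, t1, t2, card_union_of_disjoint d1, card_union_of_disjoint d2] at h3
  unfold kd
  omega

end Pool.Agent.L0h74.T3.NEG
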