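import Pool.Agent.L0h23.KD.TR
import Pool.Agent.L0h74.T3.Stm

/-!
# The linear system of the primes of `ℚ(√-3)` and the good systems of project T3

Abstract form: `m i j` are the symbols, `n`, `r` the symbols of `-1` and `√-3`, `ε` the sign.
-/

set_option autoImplicit false
set_option linter.unusedSectionVars false

open scoped Classical

namespace Pool.Agent.L0h74.T3.TR

open Pool.Agent.Y698.SG (ix)
open Pool.Agent.L0h4.TW (mem_ix)
open Pool.Agent.L0h23.KD (sum_ix Sys sys_iff Rel)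
open Pool.Agent.Y703.CQ (nr)
open Pool.Agent.N973.ND (uu nr_rec nr_self Ph TT rw' rw_eq)
open Pool.Agent.L0h4.TW (two_self)

/-- the conjugation of the indices -/
def cI (Q : Finset ℕ) (i : ℕ × Bool) : ℕ × Bool := if i.1 ∈ Q then i else (i.1, !i.2)

/-- the entries of the system -/
structure En (Q P : Finset ℕ) (m : ℕ × Bool → ℕ × Bool → ZMod 2) (n r : ℕ × Bool → ZMod 2)
    (ε : ZMod 2) (a : ℕ → ℕ → ZMod 2) (t : ℕ → ZMod 2) : Prop where
  q : ∀ q ∈ Q, q.Prime ∧ q % 2 = 1 ∧ q % 3 = 2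
  p : ∀ p ∈ P, p.Prime ∧ p % 3 = 1
  ff : ∀ p ∈ P, ∀ k ∈ P, p ≠ k → m (p, false) (k, false) = a p k
  tt : ∀ p ∈ P, ∀ k ∈ P, p ≠ k → m (p, true) (k, true) = a p k
  tf : ∀ p ∈ P, ∀ k ∈ P, p ≠ k → m (p, true) (k, false) = a p k + nr k p
  ft : ∀ p ∈ P, ∀ k ∈ P, p ≠ k → m (p, false) (k, true) = a p k + nr k p
  sf : ∀ p ∈ P, m (p, true) (p, false) = t p + uu p + t p * uu p
  st : ∀ p ∈ P, m (p, false) (p, true) = t p + uu p + t p * uu p
  pq : ∀ p ∈ P, ∀ q ∈ Q, ∀ b, m (p, b) (q, false) = nr q p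
  qp : ∀ p ∈ P, ∀ q ∈ Q, ∀ b, m (q, false) (p, b) = nr p q + uu p
  qq : ∀ q ∈ Q, ∀ q' ∈ Q, q ≠ q' → m (q, false) (q', false) = 0
  nq : ∀ q ∈ Q, n (q, false) = 0
  rq : ∀ q ∈ Q, r (q, false) = 1 + uu q
  np : ∀ p ∈ P, ∀ b, n (p, b) = uu p
  rf : ∀ p ∈ P, r (p, false) = t p + uu p
  rt : ∀ p ∈ P, r (p, true) = t p
  u : ∑ l ∈ Q ∪ P, uu l = 0
  e : ε = (Q.card : ZMod 2)

section
variable {Q P : Finset ℕ} {m : ℕ × Bool → ℕ × Bool → ZMod 2} {n r : ℕ × Bool → ZMod 2}
    {ε : ZMod 2} {a : ℕ → ℕ → ZMod 2} {t : ℕ → ZMod 2}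

lemma En.dis (h : En Q P m n r ε a t) : Disjoint Q P := by
  rw [Finset.disjoint_left]
  intro l h1 h2
  have h3 := h.q l h1
  have h4 := h.p l h2
  omega

lemma En.odd (h : En Q P m n r ε a t) {l : ℕ} (hl : l ∈ P) : l ≠ 2 := by
  rintro rfl
  have := (h.p 2 hl).2
  omega

lemma En.pr (h : En Q P m n r ε a t) {l : ℕ} (hl : l ∈ Q ∪ P) : l.Prime ∧ l ≠ 2 := by
  rcases Finset.mem_union.1 hl with h1 | h1
  · refine ⟨(h.q l h1).1, ?_⟩
    rintro rfl
    have := (h.q 2 h1).2.1
    omega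
  · exact ⟨(h.p l h1).1, h.odd h1⟩

lemma En.recp (h : En Q P m n r ε a t) {l k : ℕ} (hl : l ∈ Q ∪ P) (hk : k ∈ Q ∪ P) (hlk : l ≠ k) :
    nr l k = nr k l + uu l * uu k := by
  have h1 := nr_rec (p := k) (q := l) (h.pr hk).1 (h.pr hk).2 (h.pr hl).1 (h.pr hl).2 (Ne.symm hlk)
  rw [h1]
  ring

variable (Q P m n r ε) in
/-- the row of the system -/
noncomputable def brow (x : ℕ × Bool → ZMod 2) (j : ℕ × Bool) : ZMod 2 :=
  ∑ i ∈ ix Q P, m i j * (x i + x j) + (r j + ε * n j) * x j + n j * x (cI Q j)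

lemma brow_eq (x : ℕ × Bool → ZMod 2) {j : ℕ × Bool} (hj : j ∈ ix Q P) :
    ∑ i ∈ (ix Q P).erase j, m i j * x i + (∑ i ∈ (ix Q P).erase j, m i j + r j + ε * n j) * x j +
      n j * x (cI Q j) = brow Q P m n r ε x j := by
  unfold brow
  rw [← Finset.add_sum_erase (ix Q P) (fun i => m i j * (x i + x j)) hj, two_self, mul_zero,
    zero_add]
  have h1 : ∑ i ∈ (ix Q P).erase j, m i j * (x i + x j) =
      ∑ i ∈ (ix Q P).erase j, m i j * x i + (∑ i ∈ (ix Q P).erase j, m i j) * x j := by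
    rw [Finset.sum_mul, ← Finset.sum_add_distrib]
    exact Finset.sum_congr rfl fun i _ => by ring
  rw [h1]
  ring

variable (Q P a t) in
/-- the rows -/
noncomputable def rowz (Z S : ℕ → ZMod 2) (p : ℕ) : ZMod 2 :=
  ∑ j ∈ Q ∪ P, nr j p * (Z j + Z p) + t p * Z p + t p * S p +
    ∑ k ∈ Q ∪ P, (if p = k then 0 else (a k p + uu p * uu k + uu p * t k) + nr k p) * S k

variable (Q P t) in
/-- the dual rows -/
noncomputable def phz (S : ℕ → ZMod 2) (j : ℕ) : ZMod 2 :=
  ∑ i ∈ Q ∪ P, S i * nr j i + (t j + ∑ k ∈ Q ∪ P, nr k j) * S j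

variable (Q P t) in
/-- the additional term -/
noncomputable def lamz (Z S : ℕ → ZMod 2) : ZMod 2 :=
  ∑ j ∈ Q ∪ P, uu j * Z j + ∑ q ∈ Q, Z q + ∑ k ∈ P, t k * S k

lemma cI_P (h : En Q P m n r ε a t) {p : ℕ} (hp : p ∈ P) (b : Bool) : cI Q (p, b) = (p, !b) := by
  unfold cI
  rw [if_neg fun h' => (Finset.disjoint_left.1 h.dis h' hp)]

lemma rec_sum (h : En Q P m n r ε a t) (Z : ℕ → ZMod 2) {p : ℕ} (hp : p ∈ Q ∪ P) :
    ∑ j ∈ Q ∪ P, nr p j * (Z j + Z p) =
      ∑ j ∈ Q ∪ P, nr j p * (Z j + Z p) + uu p * ∑ j ∈ Q ∪ P, uu j * Z j := by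
  have h1 : ∀ j ∈ Q ∪ P, nr p j * (Z j + Z p) =
      nr j p * (Z j + Z p) + uu p * (uu j * Z j) + uu p * Z p * uu j := by
    intro j hj
    by_cases hpj : p = j
    · subst hpj
      rw [two_self, mul_zero, zero_add]
      linear_combination -(two_self (uu p * (uu p * Z p)))
    · rw [h.recp hp hj hpj]
      ring
  rw [Finset.sum_congr rfl h1, Finset.sum_add_distrib, Finset.sum_add_distrib, ← Finset.mul_sum,
    ← Finset.mul_sum, h.u, mul_zero, add_zero]

lemma rec_sum' (h : En Q P m n r ε a t) {p : ℕ} (hp : p ∈ Q ∪ P) :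
    ∑ j ∈ Q ∪ P, nr p j = ∑ j ∈ Q ∪ P, nr j p + uu p := by
  have h1 : ∀ j ∈ Q ∪ P, nr p j = nr j p + uu p * uu j + (if p = j then uu p else 0) := by
    intro j hj
    by_cases hpj : p = j
    · subst hpj
      rw [if_pos rfl]
      have : ∀ z : ZMod 2, z = z * z := by decide
      linear_combination -(two_self (uu p)) + this (uu p)
    · rw [h.recp hp hj hpj, if_neg hpj, add_zero]
  rw [Finset.sum_congr rfl h1, Finset.sum_add_distrib, Finset.sum_add_distrib, ← Finset.mul_sum,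
    h.u, mul_zero, add_zero, Finset.sum_ite_eq, if_pos hp]

lemma brow_pf (h : En Q P m n r ε a t) {x : ℕ × Bool → ZMod 2} {Z S : ℕ → ZMod 2}
    (hr : Rel Q P x Z S) {p : ℕ} (hp : p ∈ P) :
    brow Q P m n r ε x (p, false) = rowz Q P a t Z S p + uu p * lamz Q P t Z S := by
  have hfQ : ∀ q ∈ Q, x (q, false) = Z q := fun q hq => hr.f q (Finset.mem_union_left _ hq)
  have hfP : ∀ k ∈ P, x (k, false) = Z k := fun k hk => hr.f k (Finset.mem_union_right _ hk)
  have hp' : p ∈ Q ∪ P := Finset.mem_union_right _ hp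
  have h1 : ∀ k ∈ P, m (k, false) (p, false) * (x (k, false) + x (p, false)) +
      m (k, true) (p, false) * (x (k, true) + x (p, false)) =
      nr p k * (Z k + Z p) + (if p = k then 0 else (a k p + uu p * uu k + uu p * t k) + nr k p) * S k +
        uu p * (t k * S k) + (if p = k then (t p + uu p) * S p else 0) := by
    intro k hk
    by_cases hpk : p = k
    · subst hpk
      rw [h.sf p hp, if_pos rfl, if_pos rfl, hfP p hp, hr.t p hp, nr_self, two_self (Z p)]
      linear_combination (t p + uu p + t p * uu p) * two_self (Z p)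
    · rw [h.ff k hk p hp (Ne.symm hpk), h.tf k hk p hp (Ne.symm hpk), if_neg hpk, if_neg hpk,
        hfP p hp, hfP k hk, hr.t k hk, h.recp hp' (Finset.mem_union_right _ hk) hpk]
      linear_combination two_self (a k p * (Z k + Z p)) - two_self (uu p * t k * S k)
  have h2 : ∀ q ∈ Q, m (q, false) (p, false) * (x (q, false) + x (p, false)) =
      nr p q * (Z q + Z p) + uu p * Z q + uu p * Z p := by
    intro q hq
    rw [h.qp p hp q hq, hfP p hp, hfQ q hq]
    ring
  have h3 : ∑ k ∈ Q, (if p = k then 0 else (a k p + uu p * uu k + uu p * t k) + nr k p) * S k = 0 :=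
    Finset.sum_eq_zero fun q hq => by rw [hr.q q hq, mul_zero]
  have h4 := rec_sum h Z hp'
  unfold brow rowz lamz
  rw [sum_ix h.dis, Finset.sum_congr rfl h1, Finset.sum_congr rfl h2, h.rf p hp, h.np p hp, h.e,
    cI_P h hp, hfP p hp, show (!false) = true from rfl, hr.t p hp,
    Finset.sum_union (f := fun k => (if p = k then 0 else (a k p + uu p * uu k + uu p * t k) +
      nr k p) * S k) h.dis, h3]
  rw [Finset.sum_union (f := fun j => nr p j * (Z j + Z p)) h.dis] at h4
  have e8 : ∑ q ∈ Q, uu p * Z q = uu p * ∑ q ∈ Q, Z q := (Finset.mul_sum _ _ _).symm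
  have e9 : ∑ k ∈ P, uu p * (t k * S k) = uu p * ∑ k ∈ P, t k * S k := (Finset.mul_sum _ _ _).symm
  rw [Finset.sum_add_distrib, Finset.sum_add_distrib, Finset.sum_add_distrib, Finset.sum_add_distrib,
    Finset.sum_add_distrib, e8, e9, Finset.sum_const,
    Finset.sum_ite_eq P p, if_pos hp, nsmul_eq_mul]
  linear_combination h4 + two_self ((Q.card : ZMod 2) * uu p * Z p) + two_self (uu p * Z p) +
    two_self (uu p * S p)

lemma brow_pt (h : En Q P m n r ε a t) {x : ℕ × Bool → ZMod 2} {Z S : ℕ → ZMod 2}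
    (hr : Rel Q P x Z S) {p : ℕ} (hp : p ∈ P) :
    brow Q P m n r ε x (p, false) + brow Q P m n r ε x (p, true) =
      phz Q P t S p + uu p * Z p := by
  have hfQ : ∀ q ∈ Q, x (q, false) = Z q := fun q hq => hr.f q (Finset.mem_union_left _ hq)
  have hfP : ∀ k ∈ P, x (k, false) = Z k := fun k hk => hr.f k (Finset.mem_union_right _ hk)
  have hp' : p ∈ Q ∪ P := Finset.mem_union_right _ hp
  have h1 : ∀ k ∈ P, (m (k, false) (p, false) * (x (k, false) + x (p, false)) +
      m (k, true) (p, false) * (x (k, true) + x (p, false))) +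
      (m (k, false) (p, true) * (x (k, false) + x (p, true)) +
      m (k, true) (p, true) * (x (k, true) + x (p, true))) =
      S k * nr p k + nr p k * S p := by
    intro k hk
    by_cases hpk : p = k
    · subst hpk
      rw [h.sf p hp, h.st p hp, hfP p hp, hr.t p hp, nr_self]
      linear_combination m (p, false) (p, false) * two_self (Z p) +
        m (p, true) (p, true) * two_self (Z p + S p) +
        (t p + uu p + t p * uu p) * (two_self (Z p) + two_self (Z p) + two_self (S p))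
    · rw [h.ff k hk p hp (Ne.symm hpk), h.tf k hk p hp (Ne.symm hpk),
        h.ft k hk p hp (Ne.symm hpk), h.tt k hk p hp (Ne.symm hpk),
        hfP p hp, hfP k hk, hr.t k hk, hr.t p hp]
      linear_combination a k p * (two_self (Z k) + two_self (Z k) + two_self (Z p) +
        two_self (Z p) + two_self (S k) + two_self (S p)) + nr p k * (two_self (Z k) + two_self (Z p))
  have h2 : ∀ q ∈ Q, m (q, false) (p, false) * (x (q, false) + x (p, false)) +
      m (q, false) (p, true) * (x (q, false) + x (p, true)) = nr p q * S p + uu p * S p := by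
    intro q hq
    rw [h.qp p hp q hq, h.qp p hp q hq, hfP p hp, hfQ q hq, hr.t p hp]
    linear_combination (nr p q + uu p) * (two_self (Z q) + two_self (Z p))
  have h4 := rec_sum' h hp'
  rw [Finset.sum_union h.dis] at h4
  have e : brow Q P m n r ε x (p, false) + brow Q P m n r ε x (p, true) =
      (∑ q ∈ Q, (m (q, false) (p, false) * (x (q, false) + x (p, false)) +
        m (q, false) (p, true) * (x (q, false) + x (p, true)))) +
      (∑ k ∈ P, ((m (k, false) (p, false) * (x (k, false) + x (p, false)) +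
      m (k, true) (p, false) * (x (k, true) + x (p, false))) +
      (m (k, false) (p, true) * (x (k, false) + x (p, true)) +
      m (k, true) (p, true) * (x (k, true) + x (p, true))))) +
      ((r (p, false) + ε * n (p, false)) * x (p, false) + n (p, false) * x (p, true)) +
      ((r (p, true) + ε * n (p, true)) * x (p, true) + n (p, true) * x (p, false)) := by
    unfold brow
    rw [sum_ix h.dis, sum_ix h.dis, Finset.sum_add_distrib (s := Q), Finset.sum_add_distrib (s := P)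
      (f := fun k => (m (k, false) (p, false) * (x (k, false) + x (p, false)) +
      m (k, true) (p, false) * (x (k, true) + x (p, false)))), cI_P h hp, cI_P h hp]
    show _ + n (p, false) * x (p, true) + (_ + n (p, true) * x (p, false)) = _
    ring
  rw [e, Finset.sum_congr rfl h1, Finset.sum_congr rfl h2, h.rf p hp, h.rt p hp, h.np p hp,
    h.np p hp, h.e, hfP p hp, hr.t p hp]
  unfold phz
  rw [Finset.sum_union (f := fun i => S i * nr p i) h.dis]
  have h3 : ∑ k ∈ Q, S k * nr p k = 0 :=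
    Finset.sum_eq_zero fun q hq => by rw [hr.q q hq, zero_mul]
  rw [h3, Finset.sum_add_distrib, Finset.sum_add_distrib, ← Finset.sum_mul, ← Finset.sum_mul,
    Finset.sum_const, nsmul_eq_mul]
  have e9 : ∑ x ∈ P, nr p x * S p = S p * ∑ x ∈ P, nr p x := by
    rw [Finset.mul_sum]
    exact Finset.sum_congr rfl fun _ _ => by ring
  linear_combination S p * h4 + two_self (t p * Z p) + (Q.card : ZMod 2) * two_self (uu p * Z p) +
    (Q.card : ZMod 2) * two_self (uu p * S p) + two_self (uu p * Z p) + two_self (uu p * S p) + e9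

lemma brow_q (h : En Q P m n r ε a t) {x : ℕ × Bool → ZMod 2} {Z S : ℕ → ZMod 2}
    (hr : Rel Q P x Z S) {q : ℕ} (hq : q ∈ Q) :
    brow Q P m n r ε x (q, false) = phz Q P t S q + (1 + uu q) * Z q := by
  have hfQ : ∀ q ∈ Q, x (q, false) = Z q := fun q hq => hr.f q (Finset.mem_union_left _ hq)
  have hfP : ∀ k ∈ P, x (k, false) = Z k := fun k hk => hr.f k (Finset.mem_union_right _ hk)
  have h1 : ∀ k ∈ P, m (k, false) (q, false) * (x (k, false) + x (q, false)) +
      m (k, true) (q, false) * (x (k, true) + x (q, false)) = S k * nr q k := by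
    intro k hk
    rw [h.pq k hk q hq, h.pq k hk q hq, hfP k hk, hfQ q hq, hr.t k hk]
    linear_combination nr q k * (two_self (Z k) + two_self (Z q))
  have h2 : ∀ q' ∈ Q, m (q', false) (q, false) * (x (q', false) + x (q, false)) = 0 := by
    intro q' hq'
    by_cases hqq : q' = q
    · subst hqq
      rw [two_self, mul_zero]
    · rw [h.qq q' hq' q hq hqq, zero_mul]
  unfold brow phz
  rw [sum_ix h.dis, Finset.sum_congr rfl h1, Finset.sum_congr rfl h2, Finset.sum_const_zero,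
    h.nq q hq, h.rq q hq, hfQ q hq, Finset.sum_union h.dis, hr.q q hq]
  have h3 : ∑ k ∈ Q, S k * nr q k = 0 :=
    Finset.sum_eq_zero fun q hq => by rw [hr.q q hq, zero_mul]
  rw [h3]
  ring

/-- the additional term vanishes on the solutions of the dual equations -/
lemma lamz_zero (h : En Q P m n r ε a t) {Z S : ℕ → ZMod 2} (hS : ∀ q ∈ Q, S q = 0)
    (h2 : ∀ p ∈ P, phz Q P t S p + uu p * Z p = 0)
    (h3 : ∀ q ∈ Q, phz Q P t S q + (1 + uu q) * Z q = 0) : lamz Q P t Z S = 0 := by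
  have e1 : ∑ l ∈ Q ∪ P, phz Q P t S l = ∑ k ∈ P, t k * S k := by
    unfold phz
    rw [Finset.sum_add_distrib, Finset.sum_comm]
    have e2 : ∑ l ∈ Q ∪ P, (t l + ∑ k ∈ Q ∪ P, nr k l) * S l =
        ∑ k ∈ P, t k * S k + ∑ l ∈ Q ∪ P, ∑ k ∈ Q ∪ P, S l * nr k l := by
      have e3 : ∀ l ∈ Q ∪ P, (t l + ∑ k ∈ Q ∪ P, nr k l) * S l =
          t l * S l + ∑ k ∈ Q ∪ P, S l * nr k l := by
        intro l _
        rw [add_mul, mul_comm (∑ k ∈ Q ∪ P, nr k l), Finset.mul_sum]
      rw [Finset.sum_congr rfl e3, Finset.sum_add_distrib, Finset.sum_union h.dis]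
      have e4 : ∑ k ∈ Q, t k * S k = 0 :=
        Finset.sum_eq_zero fun q hq => by rw [hS q hq, mul_zero]
      rw [e4, zero_add]
    rw [e2]
    linear_combination two_self (∑ l ∈ Q ∪ P, ∑ k ∈ Q ∪ P, S l * nr k l)
  have e5 : ∑ l ∈ Q ∪ P, phz Q P t S l = ∑ j ∈ Q ∪ P, uu j * Z j + ∑ q ∈ Q, Z q := by
    rw [Finset.sum_union h.dis, Finset.sum_union h.dis]
    have e6 : ∀ q ∈ Q, phz Q P t S q = uu q * Z q + Z q := by
      intro q hq
      linear_combination h3 q hq - two_self (uu q * Z q) - two_self (Z q)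
    have e7 : ∀ p ∈ P, phz Q P t S p = uu p * Z p := by
      intro p hp
      linear_combination h2 p hp - two_self (uu p * Z p)
    rw [Finset.sum_congr rfl e6, Finset.sum_congr rfl e7, Finset.sum_add_distrib]
    ring
  unfold lamz
  rw [← e5, e1, two_self]

/-! ### the system on the set of the primes -/

lemma mP (h : En Q P m n r ε a t) {l : ℕ} (hl : l ∈ Q ∪ P) : m3 l = 1 ↔ l ∈ P := by
  unfold m3
  constructor
  · intro h1
    rcases Finset.mem_union.1 hl with h2 | h2
    · have h3 := (h.q l h2).2.2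
      rw [if_neg (by omega)] at h1
      omega
    · exact h2
  · intro h1
    rw [if_pos (h.p l h1).2]

lemma gP (h : En Q P m n r ε a t) {l : ℕ} (hl : l ∈ P) :
    (if ty l = 2 ∨ ty l = 1 then (0 : ZMod 2) else 1) = uu l := by
  have h1 := (h.p l hl).2
  unfold ty uu m3
  rw [if_pos h1]
  by_cases h2 : l % 4 = 3
  · rw [if_pos h2, if_pos h2, if_neg (by omega)]
  · rw [if_neg h2, if_neg h2, if_pos (by omega)]

lemma gQ (h : En Q P m n r ε a t) {l : ℕ} (hl : l ∈ Q) :
    (if ty l = 2 ∨ ty l = 1 then (0 : ZMod 2) else 1) = 1 + uu l := by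
  have h1 := (h.q l hl).2.2
  unfold ty uu m3
  rw [if_neg (by omega : ¬ l % 3 = 1)]
  by_cases h2 : l % 4 = 3
  · rw [if_pos h2, if_pos h2, if_pos (by omega)]
    decide
  · rw [if_neg h2, if_neg h2, if_neg (by omega), add_zero]

lemma sys_nat (h : En Q P m n r ε a t) (Z S : ℕ → ZMod 2) (hS : ∀ q ∈ Q, S q = 0) :
    Sys (Finset.univ.filter fun i : {x // x ∈ Q ∪ P} => m3 i = 1)
      (Finset.univ.filter fun i : {x // x ∈ Q ∪ P} => ty i = 2 ∨ ty i = 1)
      (fun i j => nr j i) (fun i j => if i = j then 0 else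
        ((a j i + uu i * uu j + uu i * t j : ZMod 2)) + nr j i)
      (fun i => t i) (fun i => Z i) (fun i => S i) ↔
    (∀ p ∈ P, rowz Q P a t Z S p = 0) ∧ (∀ p ∈ P, phz Q P t S p + uu p * Z p = 0) ∧
      ∀ q ∈ Q, phz Q P t S q + (1 + uu q) * Z q = 0 := by
  have hrow : ∀ i : {x // x ∈ Q ∪ P}, rw' (fun i j : {x // x ∈ Q ∪ P} => nr j i)
      (fun i => t i) (fun i => Z i) i + t i * S i +
      ∑ k : {x // x ∈ Q ∪ P}, (if i = k then 0 else
        ((a k i + uu i * uu k + uu i * t k : ZMod 2)) + nr k i) * S k =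
      rowz Q P a t Z S i := by
    intro i
    rw [rw_eq]
    unfold rowz
    rw [Finset.sum_coe_sort (Q ∪ P) (fun j => nr j i * (Z j + Z i)),
      ← Finset.sum_coe_sort (Q ∪ P) (fun k => (if (i : ℕ) = k then 0 else
        (a k i + uu i * uu k + uu i * t k) + nr k i) * S k)]
    congr 1
    refine Finset.sum_congr rfl fun k _ => ?_
    by_cases hik : i = k
    · rw [if_pos hik, if_pos (congrArg Subtype.val hik)]
    · rw [if_neg hik, if_neg (fun h' => hik (Subtype.ext h'))]
  have hph : ∀ l : {x // x ∈ Q ∪ P}, Ph (fun i j : {x // x ∈ Q ∪ P} => nr j i)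
      (fun i => t i) (fun i => S i) l = phz Q P t S l := by
    intro l
    unfold Ph TT phz
    rw [Finset.sum_coe_sort (Q ∪ P) (fun i => S i * nr l i),
      Finset.sum_coe_sort (Q ∪ P) (fun k => nr k l)]
  constructor
  · rintro ⟨-, h2, h3⟩
    refine ⟨fun p hp => ?_, fun p hp => ?_, fun q hq => ?_⟩
    · have hp' : p ∈ Q ∪ P := Finset.mem_union_right _ hp
      rw [← hrow ⟨p, hp'⟩]
      exact h2 ⟨p, hp'⟩ (Finset.mem_filter.2 ⟨Finset.mem_univ _, (mP h hp').2 hp⟩)
    · have hp' : p ∈ Q ∪ P := Finset.mem_union_right _ hp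
      have h4 := h3 ⟨p, hp'⟩
      rw [hph ⟨p, hp'⟩] at h4
      simp only [Finset.mem_filter, Finset.mem_univ, true_and] at h4
      rwa [gP h hp] at h4
    · have hq' : q ∈ Q ∪ P := Finset.mem_union_left _ hq
      have h4 := h3 ⟨q, hq'⟩
      rw [hph ⟨q, hq'⟩] at h4
      simp only [Finset.mem_filter, Finset.mem_univ, true_and] at h4
      rwa [gQ h hq] at h4
  · rintro ⟨h1, h2, h3⟩
    refine ⟨fun i hi => ?_, fun i hi => ?_, fun l => ?_⟩
    · rcases Finset.mem_union.1 i.2 with h4 | h4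
      · exact hS _ h4
      · exact (hi (Finset.mem_filter.2 ⟨Finset.mem_univ _, (mP h i.2).2 h4⟩)).elim
    · rw [hrow i]
      exact h1 i ((mP h i.2).1 (Finset.mem_filter.1 hi).2)
    · rw [hph l]
      simp only [Finset.mem_filter, Finset.mem_univ, true_and]
      rcases Finset.mem_union.1 l.2 with h4 | h4
      · rw [gQ h h4]
        exact h3 l h4
      · rw [gP h h4]
        exact h2 l h4

lemma rows_iff (h : En Q P m n r ε a t) {x : ℕ × Bool → ZMod 2} {Z S : ℕ → ZMod 2}
    (hr : Rel Q P x Z S) :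
    (∀ i ∈ ix Q P, brow Q P m n r ε x i = 0) ↔
    (∀ p ∈ P, rowz Q P a t Z S p = 0) ∧ (∀ p ∈ P, phz Q P t S p + uu p * Z p = 0) ∧
      ∀ q ∈ Q, phz Q P t S q + (1 + uu q) * Z q = 0 := by
  constructor
  · intro h1
    have h2 : ∀ p ∈ P, phz Q P t S p + uu p * Z p = 0 := by
      intro p hp
      rw [← brow_pt h hr hp, h1 _ (mem_ix.2 (Or.inr (Or.inl ⟨hp, rfl⟩))),
        h1 _ (mem_ix.2 (Or.inr (Or.inr ⟨hp, rfl⟩))), add_zero]
    have h3 : ∀ q ∈ Q, phz Q P t S q + (1 + uu q) * Z q = 0 := by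
      intro q hq
      rw [← brow_q h hr hq]
      exact h1 _ (mem_ix.2 (Or.inl ⟨hq, rfl⟩))
    have h4 := lamz_zero h hr.q h2 h3
    refine ⟨fun p hp => ?_, h2, h3⟩
    have h5 := brow_pf h hr hp
    rw [h4, mul_zero, add_zero] at h5
    rw [← h5]
    exact h1 _ (mem_ix.2 (Or.inr (Or.inl ⟨hp, rfl⟩)))
  · rintro ⟨h1, h2, h3⟩ ⟨l, b⟩ hi
    have h0 := lamz_zero h hr.q h2 h3
    rcases mem_ix.1 hi with ⟨h4, h5⟩ | ⟨h4, h5⟩ | ⟨h4, h5⟩
    · simp only at h4 h5
      subst h5
      rw [brow_q h hr h4]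
      exact h3 _ h4
    · simp only at h4 h5
      subst h5
      rw [brow_pf h hr h4, h0, mul_zero, add_zero]
      exact h1 _ h4
    · simp only at h4 h5
      subst h5
      have h6 := brow_pt h hr h4
      rw [h2 _ h4, brow_pf h hr h4, h1 _ h4, h0, mul_zero, add_zero, zero_add] at h6
      exact h6

/-- **The translation.** -/
theorem tr (h : En Q P m n r ε a t) :
    (∀ x : ℕ × Bool → ZMod 2, (∀ j ∈ ix Q P, ∑ i ∈ (ix Q P).erase j, m i j * x i +
      (∑ i ∈ (ix Q P).erase j, m i j + r j + ε * n j) * x j + n j * x (cI Q j) = 0) →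
        ∀ i ∈ ix Q P, x i = 0) ↔
    Gd (fun p k => a k p + uu p * uu k + uu p * t k) t (Q ∪ P) := by
  have key : Gd (fun p k => a k p + uu p * uu k + uu p * t k) t (Q ∪ P) ↔
      ∀ z s, Sys (Finset.univ.filter fun i : {x // x ∈ Q ∪ P} => m3 i = 1)
      (Finset.univ.filter fun i : {x // x ∈ Q ∪ P} => ty i = 2 ∨ ty i = 1)
      (fun i j => nr j i) (fun i j => if i = j then 0 else
        ((a j i + uu i * uu j + uu i * t j : ZMod 2)) + nr j i)
      (fun i => t i) z s → (∀ i, z i = 0) ∧ ∀ i, s i = 0 := by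
    rw [sys_iff]
    unfold Gd GR
    constructor <;> intro hh <;> convert hh <;> rfl
  rw [key]
  have key2 : (∀ x : ℕ × Bool → ZMod 2, (∀ j ∈ ix Q P, ∑ i ∈ (ix Q P).erase j, m i j * x i +
      (∑ i ∈ (ix Q P).erase j, m i j + r j + ε * n j) * x j + n j * x (cI Q j) = 0) →
        ∀ i ∈ ix Q P, x i = 0) ↔
      ∀ x : ℕ × Bool → ZMod 2, (∀ j ∈ ix Q P, brow Q P m n r ε x j = 0) →
        ∀ i ∈ ix Q P, x i = 0 := by
    refine forall_congr' fun x => ?_
    have : (∀ j ∈ ix Q P, ∑ i ∈ (ix Q P).erase j, m i j * x i +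
      (∑ i ∈ (ix Q P).erase j, m i j + r j + ε * n j) * x j + n j * x (cI Q j) = 0) ↔
      ∀ j ∈ ix Q P, brow Q P m n r ε x j = 0 := by
      constructor
      · intro h1 j hj
        rw [← brow_eq x hj]
        exact h1 j hj
      · intro h1 j hj
        rw [brow_eq x hj]
        exact h1 j hj
    rw [this]
  rw [key2]
  constructor
  · intro h1 z s hzs
    set Z : ℕ → ZMod 2 := fun n => if hn : n ∈ Q ∪ P then z ⟨n, hn⟩ else 0 with hZ
    set S : ℕ → ZMod 2 := fun n => if hn : n ∈ Q ∪ P then s ⟨n, hn⟩ else 0 with hS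
    have ez : (fun i : {x // x ∈ Q ∪ P} => Z i) = z := by
      funext i
      exact dif_pos i.2
    have es : (fun i : {x // x ∈ Q ∪ P} => S i) = s := by
      funext i
      exact dif_pos i.2
    have hSQ : ∀ q ∈ Q, S q = 0 := by
      intro q hq
      have hq' : q ∈ Q ∪ P := Finset.mem_union_left _ hq
      have h2 : S q = s ⟨q, hq'⟩ := dif_pos hq'
      rw [h2]
      apply hzs.sup
      intro h3
      exact Finset.disjoint_left.1 h.dis hq ((mP h hq').1 (Finset.mem_filter.1 h3).2)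
    have h2 := (sys_nat h Z S hSQ).1 (by rw [ez, es]; exact hzs)
    set x : ℕ × Bool → ZMod 2 := fun i => if i.2 then Z i.1 + S i.1 else Z i.1 with hx
    have hr : Rel Q P x Z S := ⟨fun n _ => rfl, fun n _ => rfl, hSQ⟩
    have h3 := h1 x ((rows_iff h hr).2 h2)
    have h4 : ∀ n ∈ Q ∪ P, Z n = 0 := by
      intro n hn
      have : x (n, false) = Z n := rfl
      rw [← this]
      apply h3
      rcases Finset.mem_union.1 hn with h5 | h5
      · exact mem_ix.2 (Or.inl ⟨h5, rfl⟩)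
      · exact mem_ix.2 (Or.inr (Or.inl ⟨h5, rfl⟩))
    have h5 : ∀ n ∈ Q ∪ P, S n = 0 := by
      intro n hn
      rcases Finset.mem_union.1 hn with h6 | h6
      · exact hSQ n h6
      · have h7 : x (n, true) = Z n + S n := rfl
        have h8 := h3 (n, true) (mem_ix.2 (Or.inr (Or.inr ⟨h6, rfl⟩)))
        rw [h7, h4 n hn, zero_add] at h8
        exact h8
    refine ⟨fun i => ?_, fun i => ?_⟩
    · rw [← ez]
      exact h4 i i.2
    · rw [← es]
      exact h5 i i.2
  · intro h1 x hx i hi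
    set Z : ℕ → ZMod 2 := fun n => x (n, false) with hZ
    set S : ℕ → ZMod 2 := fun n => if n ∈ P then x (n, false) + x (n, true) else 0 with hS
    have hr : Rel Q P x Z S := by
      refine ⟨fun n _ => rfl, fun p hp => ?_, fun q hq => ?_⟩
      · have : S p = x (p, false) + x (p, true) := if_pos hp
        rw [this]
        linear_combination -two_self (x (p, false))
      · exact if_neg (Finset.disjoint_left.1 h.dis hq)
    obtain ⟨h2, h3⟩ := h1 _ _ ((sys_nat h Z S hr.q).2 ((rows_iff h hr).1 hx))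
    obtain ⟨n, b⟩ := i
    rcases mem_ix.1 hi with ⟨h4, h5⟩ | ⟨h4, h5⟩ | ⟨h4, h5⟩
    · simp only at h4 h5
      subst h5
      exact h2 ⟨n, Finset.mem_union_left _ h4⟩
    · simp only at h4 h5
      subst h5
      exact h2 ⟨n, Finset.mem_union_right _ h4⟩
    · simp only at h4 h5
      subst h5
      rw [hr.t n h4]
      have h6 : Z n = 0 := h2 ⟨n, Finset.mem_union_right _ h4⟩
      have h7 : S n = 0 := h3 ⟨n, Finset.mem_union_right _ h4⟩
      rw [h6, h7, add_zero]

/-- the reciprocity law of the good systems -/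
theorem rec_of {a : ℕ → ℕ → ZMod 2} {t : ℕ → ZMod 2}
    (h : ∀ p q : ℕ, Pr p → Pr q → p ≠ q → m3 p = 1 → m3 q = 1 →
      a p q + a q p = t p * uu q + uu p * t q + uu p * uu q) :
    RecA (fun p k => a k p + uu p * uu k + uu p * t k) := by
  intro p q hp hq hpq h1 h2
  have h3 := h p q hp hq hpq h1 h2
  show a p q + uu q * uu p + uu q * t p = a q p + uu p * uu q + uu p * t q + uu p * uu q
  linear_combination h3 - two_self (a q p) + two_self (uu q * t p)

end

end Pool.Agent.L0h74.T3.TR
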